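import Pool.Agent.J6H39.IC.Fin2
import Pool.Agent.K1H70.GC.RealInt

/-! The mean over the scales of the Good-Churchhouse variance as an average of the mean squares of the
increments of the Mertens function with a fixed ratio. -/

set_option autoImplicit false

open MeasureTheory Set Filter Topology

namespace Pool.Agent.J6H10.GE

open Pool.Agent.H448R2.GC (Mer MH VV)
open Pool.Agent.K1H70.GC (md md_int md_nonneg VV_eq VV_nonneg)
open Pool.Agent.J6H39.IC (MM D)

theorem MM_eq : MM = Mer := rfl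

/-- the ratio -/
noncomputable def kp (T v : ℝ) : ℝ := 1 / (T * v)

/-- the integrand -/
noncomputable def gg (κ u : ℝ) : ℝ := ((Mer ((1 + κ) * u) - Mer u) / u) ^ 2

theorem gg_nonneg (κ u : ℝ) : 0 ≤ gg κ u := sq_nonneg _

theorem meas_Mer : Measurable Mer := Pool.Agent.H448R2.GC.SV.meas_Mer

theorem gg_meas_aux {f : ℝ → ℝ} (hf : Measurable f) :
    Measurable fun p : ℝ × ℝ => ((f ((1 + p.1) * p.2) - f p.2) / p.2) ^ 2 := by
  have h1 : Measurable fun p : ℝ × ℝ => (1 + p.1) * p.2 :=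
    (measurable_const.add measurable_fst).mul measurable_snd
  have h2 : Measurable fun p : ℝ × ℝ => p.2 := measurable_snd
  have h3 : Measurable fun p : ℝ × ℝ => f ((1 + p.1) * p.2) := hf.comp h1
  have h4 : Measurable fun p : ℝ × ℝ => f p.2 := hf.comp h2
  exact ((h3.sub h4).div h2).pow_const 2

theorem gg_meas2 : Measurable fun p : ℝ × ℝ => gg p.1 p.2 := by
  have h := gg_meas_aux (f := Mer) meas_Mer
  exact h

theorem gg_meas_aux2 {f : ℝ → ℝ} (hf : Measurable f) (κ : ℝ) :
    Measurable fun u : ℝ => ((f ((1 + κ) * u) - f u) / u) ^ 2 := by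
  have h3 : Measurable fun p : ℝ => f ((1 + κ) * p) := hf.comp (measurable_id.const_mul _)
  exact ((h3.sub hf).div measurable_id).pow_const 2

theorem gg_meas (κ : ℝ) : Measurable (gg κ) := by
  have h1 := gg_meas_aux2 (f := Mer) meas_Mer κ
  exact h1

theorem gg_le {κ u : ℝ} (hκ : 0 ≤ κ) (hu : 0 < u) : gg κ u ≤ (2 + κ) ^ 2 := by
  unfold gg
  have h1 := Pool.Agent.H448R2.GC.SV.abs_Mer_le ((1 + κ) * u)
  have h2 := Pool.Agent.H448R2.GC.SV.abs_Mer_le u
  rw [abs_of_pos (by positivity : 0 < (1 + κ) * u)] at h1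
  rw [abs_of_pos hu] at h2
  have h3 : |Mer ((1 + κ) * u) - Mer u| ≤ (2 + κ) * u := by
    have := abs_sub (Mer ((1 + κ) * u)) (Mer u)
    have h4 : |Mer ((1 + κ) * u) - Mer u| ≤ |Mer ((1 + κ) * u)| + |Mer u| := by
      simpa using this
    nlinarith
  rw [← sq_abs, abs_div, abs_of_pos hu]
  have h5 : |Mer ((1 + κ) * u) - Mer u| / u ≤ 2 + κ := by
    rw [div_le_iff₀ hu]
    exact h3
  have h6 : 0 ≤ |Mer ((1 + κ) * u) - Mer u| / u := by positivity
  gcongr

theorem gg_ii {κ a b : ℝ} (hκ : 0 ≤ κ) (ha : 0 < a) (hb : 0 < b) :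
    IntervalIntegrable (gg κ) volume a b := by
  rw [intervalIntegrable_iff]
  refine Measure.integrableOn_of_bounded (M := (2 + κ) ^ 2) ?_ (gg_meas κ).aestronglyMeasurable ?_
  · rw [uIoc, Real.volume_Ioc]; exact ENNReal.ofReal_ne_top
  · refine (ae_restrict_iff' measurableSet_uIoc).2 (Eventually.of_forall fun u hu => ?_)
    have hu0 : 0 < u := by
      have : min a b < u := hu.1
      exact (lt_min ha hb).trans this
    rw [Real.norm_eq_abs, abs_of_nonneg (gg_nonneg _ _)]
    exact gg_le hκ hu0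

theorem D_sub {κ a b : ℝ} (hκ : 0 ≤ κ) (ha : 0 < a) (hb : 0 < b) :
    ∫ u in a..b, gg κ u = D κ b - D κ a := by
  have h1 := intervalIntegral.integral_add_adjacent_intervals (gg_ii hκ one_pos ha) (gg_ii hκ ha hb)
  have e1 : D κ b = ∫ u in (1 : ℝ)..b, gg κ u := rfl
  have e2 : D κ a = ∫ u in (1 : ℝ)..a, gg κ u := rfl
  rw [e1, e2]
  linarith

/-- the variance as an average over the ratios -/
theorem VV_ratio {X T : ℝ} (hX : 0 < X) (hT : 1 ≤ T) :
    VV X (X / T) = ∫ v in (1 - 1 / (2 * T))..(2 - 1 / (2 * T)), (X * v) ^ 2 * gg (kp T v) (X * v) := by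
  have hT0 : 0 < T := by linarith
  have hH : 0 < X / T := by positivity
  rw [VV_eq hX hH, ← intervalIntegral.integral_of_le (by linarith)]
  have h1 := intervalIntegral.integral_comp_mul_left (a := 1) (b := 2) (fun x => md x (X / T)) hX.ne'
  have h2 := intervalIntegral.integral_comp_add_right (a := 1 - 1 / (2 * T)) (b := 2 - 1 / (2 * T))
    (fun w => md (X * w) (X / T)) (1 / (2 * T))
  rw [sub_add_cancel, sub_add_cancel, h1, mul_one, smul_eq_mul, mul_comm X 2] at h2
  rw [one_div, ← h2]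
  refine intervalIntegral.integral_congr fun v hv => ?_
  have hv0 : 0 < v := by
    have h3 : (1 : ℝ) - 1 / (2 * T) ≤ 2 - 1 / (2 * T) := by linarith
    rw [uIcc_of_le h3] at hv
    have h4 : 1 / (2 * T) ≤ 1 / 2 := by
      apply one_div_le_one_div_of_le <;> linarith
    linarith [hv.1]
  have e1 : (1 + kp T v) * (X * v) = X * (v + 1 / (2 * T)) + X / T / 2 := by
    unfold kp
    field_simp
    ring
  have e2 : X * v = X * (v + 1 / (2 * T)) - X / T / 2 := by
    field_simp
    ring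
  show md (X * (v + 1 / (2 * T))) (X / T) = (X * v) ^ 2 * gg (kp T v) (X * v)
  unfold gg
  rw [div_pow, mul_div_cancel₀ _ (by positivity), e1]
  conv_rhs => rw [e2]
  rfl

/-- the function of two variables -/
noncomputable def FF (T X v : ℝ) : ℝ := T * v ^ 2 * gg (kp T v) (X * v)

theorem FF_meas_aux {g : ℝ × ℝ → ℝ} (hg : Measurable g) (T : ℝ) :
    Measurable fun p : ℝ × ℝ => T * p.2 ^ 2 * g (1 / (T * p.2), p.1 * p.2) := by
  have h1 : Measurable fun p : ℝ × ℝ => 1 / (T * p.2) :=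
    measurable_const.div (measurable_const.mul measurable_snd)
  have h2 : Measurable fun p : ℝ × ℝ => p.1 * p.2 := measurable_fst.mul measurable_snd
  have h3 : Measurable fun p : ℝ × ℝ => g (1 / (T * p.2), p.1 * p.2) := hg.comp (h1.prodMk h2)
  have h4 : Measurable fun p : ℝ × ℝ => T * p.2 ^ 2 :=
    measurable_const.mul (measurable_snd.pow_const 2)
  exact h4.mul h3

theorem FF_meas (T : ℝ) : Measurable (Function.uncurry (FF T)) := by
  have h := FF_meas_aux (g := fun p => gg p.1 p.2) gg_meas2 T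
  exact h

theorem kp_pos {T v : ℝ} (hT : 0 < T) (hv : 0 < v) : 0 < kp T v := by unfold kp; positivity

theorem v_low {T v : ℝ} (hT : 2 ≤ T) (hv : 1 - 1 / (2 * T) ≤ v) : 3 / 4 ≤ v := by
  have h4 : 1 / (2 * T) ≤ 1 / 4 := by
    apply one_div_le_one_div_of_le <;> linarith
  linarith

theorem v_up {T v : ℝ} (hT : 0 < T) (hv : v ≤ 2 - 1 / (2 * T)) : v ≤ 2 := by
  have : 0 < 1 / (2 * T) := by positivity
  linarith

theorem kp_le {T v : ℝ} (hT : 2 ≤ T) (hv : 3 / 4 ≤ v) : kp T v ≤ 2 / 3 := by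
  unfold kp
  rw [div_le_iff₀ (by nlinarith)]
  nlinarith

theorem FF_bound {T X v : ℝ} (hT : 2 ≤ T) (hX : 1 ≤ X) (hv : 1 - 1 / (2 * T) ≤ v) (hv2 : v ≤ 2 - 1 / (2 * T)) :
    ‖FF T X v‖ ≤ T * 4 * 9 := by
  have h1 := v_low hT hv
  have h2 := v_up (by linarith) hv2
  have h3 := kp_le hT h1
  have h4 : 0 < kp T v := kp_pos (by linarith) (by linarith)
  have h5 : gg (kp T v) (X * v) ≤ (2 + kp T v) ^ 2 := gg_le h4.le (by nlinarith)
  have h6 : (2 + kp T v) ^ 2 ≤ 9 := by nlinarith
  unfold FF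
  have h7 := gg_nonneg (kp T v) (X * v)
  rw [Real.norm_eq_abs, abs_of_nonneg (by positivity)]
  have h8 : v ^ 2 ≤ 4 := by nlinarith
  have h9 : gg (kp T v) (X * v) ≤ 9 := h5.trans h6
  have hT0 : 0 ≤ T := by linarith
  calc T * v ^ 2 * gg (kp T v) (X * v) ≤ T * 4 * 9 := by gcongr

theorem FF_int {T z : ℝ} (hT : 2 ≤ T) :
    Integrable (Function.uncurry (FF T)) ((volume.restrict (Ioc 1 z)).prod
      (volume.restrict (Ioc (1 - 1 / (2 * T)) (2 - 1 / (2 * T))))) := by
  refine Integrable.of_bound (FF_meas T).aestronglyMeasurable (T * 4 * 9) ?_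
  rw [Measure.prod_restrict]
  refine (ae_restrict_iff' (measurableSet_Ioc.prod measurableSet_Ioc)).2 (Eventually.of_forall fun p hp => ?_)
  exact FF_bound hT hp.1.1.le hp.2.1.le hp.2.2

theorem inner_eq {T z v : ℝ} (hT : 2 ≤ T) (hz : 1 ≤ z) (hv : 3 / 4 ≤ v) :
    ∫ X in Ioc 1 z, FF T X v = T * v * (D (kp T v) (z * v) - D (kp T v) v) := by
  have hv0 : 0 < v := by linarith
  have hT0 : 0 < T := by linarith
  have hk := (kp_pos hT0 hv0).le
  rw [← D_sub hk hv0 (by positivity), ← intervalIntegral.integral_of_le hz]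
  have h1 := intervalIntegral.integral_comp_mul_right (a := 1) (b := z) (gg (kp T v)) hv0.ne'
  rw [one_mul, smul_eq_mul] at h1
  unfold FF
  rw [intervalIntegral.integral_const_mul, h1]
  field_simp

/-- **the exact formula** -/
theorem Q_eq {T z : ℝ} (hT : 2 ≤ T) (hz : 1 ≤ z) :
    (∫ X in (1 : ℝ)..z, VV X (X / T) / (X / T) / X) =
      ∫ v in (1 - 1 / (2 * T))..(2 - 1 / (2 * T)), T * v * (D (kp T v) (z * v) - D (kp T v) v) ∧
    IntervalIntegrable (fun v => T * v * (D (kp T v) (z * v) - D (kp T v) v)) volume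
      (1 - 1 / (2 * T)) (2 - 1 / (2 * T)) := by
  have hT0 : 0 < T := by linarith
  have hle : (1 : ℝ) - 1 / (2 * T) ≤ 2 - 1 / (2 * T) := by linarith
  have hint := FF_int (z := z) hT
  have hsw := integral_integral_swap (f := FF T) hint
  have e2 : ∀ v ∈ Ioc (1 - 1 / (2 * T)) (2 - 1 / (2 * T)),
      ∫ X in Ioc 1 z, FF T X v = T * v * (D (kp T v) (z * v) - D (kp T v) v) :=
    fun v hv => inner_eq hT hz (v_low hT hv.1.le)
  constructor
  · rw [intervalIntegral.integral_of_le hz, intervalIntegral.integral_of_le hle,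
      ← setIntegral_congr_fun measurableSet_Ioc e2, ← hsw]
    refine setIntegral_congr_fun measurableSet_Ioc fun X hX => ?_
    have hX0 : 0 < X := by linarith [hX.1]
    show VV X (X / T) / (X / T) / X = ∫ v in Ioc (1 - 1 / (2 * T)) (2 - 1 / (2 * T)), FF T X v
    rw [VV_ratio hX0 (by linarith), intervalIntegral.integral_of_le hle]
    have e3 : ∀ v, FF T X v = (T / X ^ 2) * ((X * v) ^ 2 * gg (kp T v) (X * v)) := by
      intro v
      unfold FF
      field_simp
    simp_rw [e3]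
    rw [integral_const_mul]
    field_simp
  · rw [intervalIntegrable_iff_integrableOn_Ioc_of_le hle]
    have h1 := hint.integral_prod_right
    refine Integrable.congr h1 ?_
    refine (ae_restrict_iff' measurableSet_Ioc).2 (Eventually.of_forall fun v hv => ?_)
    exact e2 v hv

end Pool.Agent.J6H10.GE
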