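import Pool.Agent.J6H10.GE.E1

/-! The limit of the logarithmic mean over the scales, and its divergence without the condition on the
zeros. -/

set_option autoImplicit false

open MeasureTheory Set Filter Topology

namespace Pool.Agent.J6H10.GE

open Pool.Agent.H448R2.GC (Mer MH VV)
open Pool.Agent.J6H39.ML (fM NT RHS ZC JW_fM JW_lim ZC_of_freq)
open Pool.Agent.H295R2 (JW JW_nonneg)
open Pool.Agent.W120.WM (msq msq_eq)
open Pool.Agent.J6H39.IC (MM D DD D_eq DD_nonneg gI gI_ii gI_sq_le fM_ii fM_shift exp_half V0 D_lim log_pos')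

/-- the mean square of the Mertens function on the logarithmic scale -/
noncomputable def FI (V : ℝ) : ℝ := ∫ v in (0 : ℝ)..V, fM v ^ 2

theorem FI_nonneg {V : ℝ} (hV : 0 ≤ V) : 0 ≤ FI V :=
  intervalIntegral.integral_nonneg hV fun v _ => sq_nonneg _

theorem FI_eq {V : ℝ} (hV : 0 ≤ V) : JW 0 V = FI V := by
  rw [JW_fM]
  unfold FI
  rw [intervalIntegral.integral_of_le hV]

theorem FI_mono {a b : ℝ} (ha : 0 ≤ a) (hab : a ≤ b) : FI a ≤ FI b := by
  have h1 := intervalIntegral.integral_add_adjacent_intervals (fM_ii le_rfl ha) (fM_ii ha hab)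
  have h2 : 0 ≤ ∫ v in a..b, fM v ^ 2 := intervalIntegral.integral_nonneg hab fun v _ => sq_nonneg _
  unfold FI
  linarith

theorem FI_shift {l V : ℝ} (hl : 0 ≤ l) (hV : 0 ≤ V) :
    ∫ v in (0 : ℝ)..V, fM (v + l) ^ 2 = FI (V + l) - FI l := by
  have e := intervalIntegral.integral_comp_add_right (a := 0) (b := V) (fun v => fM v ^ 2) l
  rw [e, zero_add]
  have h1 := intervalIntegral.integral_add_adjacent_intervals (fM_ii le_rfl hl)
    (fM_ii hl (by linarith : l ≤ V + l))
  unfold FI
  linarith

theorem DD_le {l V : ℝ} (hl : 0 ≤ l) (hl1 : l ≤ 1) (hV : 0 ≤ V) : DD l V ≤ 8 * FI (V + 1) := by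
  have h1 : DD l V ≤ 2 * Real.exp l * (FI (V + l) - FI l) + 2 * FI V := by
    unfold DD
    rw [← FI_shift hl hV]
    unfold FI
    rw [← intervalIntegral.integral_const_mul, ← intervalIntegral.integral_const_mul,
      ← intervalIntegral.integral_add ((fM_shift hl hV).const_mul _) ((fM_ii le_rfl hV).const_mul _)]
    refine intervalIntegral.integral_mono_on hV (gI_ii hl hV)
      (((fM_shift hl hV).const_mul _).add ((fM_ii le_rfl hV).const_mul _)) fun v _ => gI_sq_le l v
  have h2 : FI (V + l) ≤ FI (V + 1) := FI_mono (by linarith) (by linarith)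
  have h3 : FI V ≤ FI (V + 1) := FI_mono hV (by linarith)
  have h4 : 0 ≤ FI l := FI_nonneg hl
  have h5 : 0 ≤ FI (V + 1) := FI_nonneg (by linarith)
  have h6 : Real.exp l ≤ 3 := by
    have h7 : Real.exp l ≤ Real.exp 1 := Real.exp_le_exp.2 hl1
    have := Real.exp_one_lt_d9
    linarith
  have h8 := Real.exp_pos l
  have h9 : 2 * Real.exp l * (FI (V + l) - FI l) ≤ 6 * FI (V + 1) := by
    calc 2 * Real.exp l * (FI (V + l) - FI l) ≤ 2 * Real.exp l * FI (V + 1) := by
          gcongr
          linarith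
      _ ≤ 2 * 3 * FI (V + 1) := by gcongr
      _ = 6 * FI (V + 1) := by ring
  linarith

/-- the uniform form of helper39's inequality -/
theorem FI_le_DD {l V k : ℝ} (hl : 0 < l) (hV : 0 ≤ V) (hk : k = Real.exp l - 1) :
    k / 2 * FI V ≤ Real.exp l * FI l + (1 + 2 / k) * DD l V := by
  have hk0 : 0 < k := by
    have := Real.add_one_lt_exp hl.ne'
    linarith
  set θ := k / 2 with hθ
  have hθ0 : 0 < θ := by positivity
  set R := 1 + 1 / θ with hR
  have hR0 : 0 < R := by positivity
  have hRe : 1 + 2 / k = R := by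
    rw [hR, hθ]
    field_simp
  have hFm : FI V ≤ FI (V + l) := FI_mono hV (by linarith)
  have hsh := FI_shift hl.le hV
  have hpt : ∀ v, Real.exp l * fM (v + l) ^ 2 ≤ (1 + θ) * fM v ^ 2 + R * gI l v ^ 2 := by
    intro v
    have e : Real.exp l * fM (v + l) ^ 2 = (fM v + gI l v) ^ 2 := by
      unfold gI
      rw [exp_half l]
      ring
    rw [e]
    have e2 : 2 * (fM v * gI l v) ≤ θ * fM v ^ 2 + 1 / θ * gI l v ^ 2 := by
      have e3 : θ * fM v ^ 2 + 1 / θ * gI l v ^ 2 - 2 * (fM v * gI l v) = (θ * fM v - gI l v) ^ 2 / θ := by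
        field_simp
        ring
      have e4 : 0 ≤ (θ * fM v - gI l v) ^ 2 / θ := by positivity
      linarith
    rw [hR]
    nlinarith
  have hint := intervalIntegral.integral_mono_on hV ((fM_shift hl.le hV).const_mul (Real.exp l))
    (((fM_ii le_rfl hV).const_mul (1 + θ)).add ((gI_ii hl.le hV).const_mul R)) fun v _ => hpt v
  rw [intervalIntegral.integral_add ((fM_ii le_rfl hV).const_mul _) ((gI_ii hl.le hV).const_mul _),
    intervalIntegral.integral_const_mul, intervalIntegral.integral_const_mul,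
    intervalIntegral.integral_const_mul, hsh] at hint
  have hint' : Real.exp l * (FI (V + l) - FI l) ≤ (1 + θ) * FI V + R * DD l V := hint
  have hFV := FI_nonneg hV
  have hFl := FI_nonneg hl.le
  have hFVl := FI_nonneg (by linarith : 0 ≤ V + l)
  have hE : Real.exp l = k + 1 := by rw [hk]; ring
  rw [hRe]
  have h2 : (1 + θ) * FI V ≤ (1 + θ) * FI (V + l) := by gcongr
  have h3 : θ * FI V ≤ θ * FI (V + l) := by gcongr
  rw [hE] at hint' ⊢
  have hk2 : k = 2 * θ := by rw [hθ]; ring
  rw [hk2] at hint' ⊢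
  nlinarith

theorem D_abs {κ v : ℝ} (hκ : 0 ≤ κ) (hκ1 : κ ≤ 1) (hv : 1 / 2 ≤ v) (hv2 : v ≤ 2) : |D κ v| ≤ 9 := by
  have e2 : D κ v = ∫ u in (1 : ℝ)..v, gg κ u := rfl
  rw [e2, ← Real.norm_eq_abs]
  have h1 : ∀ u ∈ Set.uIoc (1 : ℝ) v, ‖gg κ u‖ ≤ 9 := by
    intro u hu
    have hu0 : 0 < u := by
      have : min 1 v < u := hu.1
      have h3 : (0 : ℝ) < min 1 v := lt_min one_pos (by linarith)
      linarith
    rw [Real.norm_eq_abs, abs_of_nonneg (gg_nonneg _ _)]
    have h4 := gg_le hκ hu0
    nlinarith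
  have h2 := intervalIntegral.norm_integral_le_of_norm_le_const h1
  have h3 : |v - 1| ≤ 1 := by
    rw [abs_le]
    constructor <;> linarith
  linarith

/-- the logarithmic integral over the scales -/
noncomputable def QQ (T z : ℝ) : ℝ := ∫ X in (1 : ℝ)..z, VV X (X / T) / (X / T) / X

/-- the limit -/
noncomputable def Lam (T : ℝ) : ℝ :=
  ∫ v in (1 - 1 / (2 * T))..(2 - 1 / (2 * T)), T * v * V0 (kp T v)

theorem ends_le (T : ℝ) : (1 : ℝ) - 1 / (2 * T) ≤ 2 - 1 / (2 * T) := by linarith

/-- bound of the increments by the mean square -/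
theorem D_le {κ z v : ℝ} (hκ : 0 ≤ κ) (hκ1 : κ ≤ 1) (hz : 2 ≤ z) (hv : 1 / 2 ≤ v) (hv2 : v ≤ 2) :
    0 ≤ D κ (z * v) ∧ D κ (z * v) ≤ 8 * FI (Real.log z + 2) := by
  have h1 : 1 ≤ z * v := by nlinarith
  have hl : 0 ≤ Real.log (1 + κ) := Real.log_nonneg (by linarith)
  have hl1 : Real.log (1 + κ) ≤ 1 := by
    have := Real.log_le_sub_one_of_pos (by linarith : 0 < 1 + κ)
    linarith
  have hL : 0 ≤ Real.log (z * v) := Real.log_nonneg h1
  rw [D_eq hκ h1]
  refine ⟨DD_nonneg _ _ hL, (DD_le hl hl1 hL).trans ?_⟩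
  have h2 : Real.log (z * v) ≤ Real.log z + 1 := by
    rw [Real.log_mul (by positivity) (by positivity)]
    have := Real.log_le_sub_one_of_pos (by linarith : 0 < v)
    linarith
  have h3 : FI (Real.log (z * v) + 1) ≤ FI (Real.log z + 2) := FI_mono (by linarith) (by linarith)
  linarith

theorem D_lim_shift (h : ZC) {κ : ℝ} (hκ : 0 < κ) {v : ℝ} (hv : 0 < v) :
    Tendsto (fun z : ℝ => D κ (z * v) / Real.log z) atTop (𝓝 (V0 κ)) := by
  have h1 : Tendsto (fun z : ℝ => z * v) atTop atTop := tendsto_id.atTop_mul_const hv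
  have h2 := (D_lim h hκ).comp h1
  have h3 : Tendsto (fun z : ℝ => 1 + Real.log v / Real.log z) atTop (𝓝 (1 + 0)) :=
    tendsto_const_nhds.add (tendsto_const_nhds.div_atTop Real.tendsto_log_atTop)
  have h4 := h2.mul h3
  rw [add_zero, mul_one] at h4
  refine h4.congr' ?_
  filter_upwards [eventually_gt_atTop 1, h1.eventually (eventually_gt_atTop 1)] with z hz hzv
  have hl : 0 < Real.log z := Real.log_pos hz
  have hl2 : 0 < Real.log (z * v) := Real.log_pos hzv
  simp only [Function.comp]
  have e : 1 + Real.log v / Real.log z = Real.log (z * v) / Real.log z := by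
    rw [Real.log_mul (by positivity) hv.ne']
    field_simp
  rw [e]
  field_simp

/-- **the limit of the logarithmic mean** -/
theorem mean_lim (h : ZC) {T : ℝ} (hT : 2 ≤ T) :
    Tendsto (fun z => QQ T z / Real.log z) atTop (𝓝 (Lam T)) := by
  have hT0 : 0 < T := by linarith
  obtain ⟨C, hC0, hC⟩ : ∃ C : ℝ, 0 ≤ C ∧ ∀ᶠ V : ℝ in atTop, FI V ≤ C * V := by
    have h1 := JW_lim h
    set S := ∑' ρ : NT, 1 / ‖(ρ : ℂ) * deriv riemannZeta ρ‖ ^ 2 with hS
    have hS0 : 0 ≤ S := tsum_nonneg fun ρ => by positivity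
    refine ⟨S + 1, by linarith, ?_⟩
    filter_upwards [h1.eventually (gt_mem_nhds (lt_add_one S)), eventually_gt_atTop 0] with V h2 h3
    rw [div_lt_iff₀ h3, FI_eq h3.le] at h2
    exact h2.le
  have hlim : Tendsto (fun z : ℝ => ∫ v in (1 - 1 / (2 * T))..(2 - 1 / (2 * T)),
      T * v * (D (kp T v) (z * v) - D (kp T v) v) / Real.log z) atTop (𝓝 (Lam T)) := by
    unfold Lam
    refine intervalIntegral.tendsto_integral_filter_of_dominated_convergence
      (fun _ => T * 2 * (24 * C + 9)) ?_ ?_ ?_ ?_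
    · filter_upwards [eventually_ge_atTop 1] with z hz
      rw [uIoc_of_le (ends_le T)]
      exact ((Q_eq hT hz).2.div_const (Real.log z)).aestronglyMeasurable
    · have hlog : Tendsto (fun z : ℝ => Real.log z + 2) atTop atTop :=
        tendsto_atTop_add_const_right _ _ Real.tendsto_log_atTop
      filter_upwards [eventually_ge_atTop 2, hlog.eventually hC,
        Real.tendsto_log_atTop.eventually (eventually_ge_atTop 1)] with z hz h1 h2
      refine Eventually.of_forall fun v hv => ?_
      rw [uIoc_of_le (ends_le T)] at hv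
      have hv1 := v_low hT hv.1.le
      have hv2 := v_up hT0 hv.2
      have hk := kp_pos hT0 (by linarith : 0 < v)
      have hk1 := kp_le hT hv1
      have h3 := D_abs hk.le (by linarith) (by linarith : (1 : ℝ) / 2 ≤ v) hv2
      obtain ⟨h4, h5⟩ := D_le hk.le (by linarith : kp T v ≤ 1) hz (by linarith : (1 : ℝ) / 2 ≤ v) hv2
      have h6 : D (kp T v) (z * v) ≤ 24 * C * Real.log z := by
        have h7 : FI (Real.log z + 2) ≤ C * (3 * Real.log z) := by
          refine h1.trans ?_
          gcongr
          linarith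
        linarith
      have h8 : |D (kp T v) (z * v) - D (kp T v) v| ≤ (24 * C + 9) * Real.log z := by
        have h9 := abs_le.1 h3
        rw [abs_le]
        have h10 : 0 ≤ 24 * C * Real.log z := by positivity
        constructor <;> nlinarith
      rw [Real.norm_eq_abs, abs_div, abs_of_pos (by linarith : 0 < Real.log z), div_le_iff₀ (by linarith),
        abs_mul, abs_of_pos (by positivity : 0 < T * v)]
      calc T * v * |D (kp T v) (z * v) - D (kp T v) v| ≤ T * 2 * ((24 * C + 9) * Real.log z) := by gcongr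
        _ = T * 2 * (24 * C + 9) * Real.log z := by ring
    · exact intervalIntegrable_const
    · refine Eventually.of_forall fun v hv => ?_
      rw [uIoc_of_le (ends_le T)] at hv
      have hv1 := v_low hT hv.1.le
      have hk := kp_pos hT0 (by linarith : 0 < v)
      have h1 := D_lim_shift h hk (by linarith : 0 < v)
      have h2 : Tendsto (fun z : ℝ => D (kp T v) v / Real.log z) atTop (𝓝 0) :=
        tendsto_const_nhds.div_atTop Real.tendsto_log_atTop
      have h3 := (h1.sub h2).const_mul (T * v)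
      rw [sub_zero] at h3
      refine h3.congr fun z => ?_
      ring
  refine hlim.congr' ?_
  filter_upwards [eventually_ge_atTop 1] with z hz
  unfold QQ
  rw [(Q_eq hT hz).1, intervalIntegral.integral_div]

/-- **the condition on the zeros from a bounded mean** -/
theorem ZC_of_mean {T : ℝ} (hT : 2 ≤ T) {C : ℝ} (h : ∃ᶠ z : ℝ in atTop, QQ T z ≤ C * Real.log z) : ZC := by
  have hT0 : 0 < T := by linarith
  set C' := |C| + 1 with hC'
  have hC0 : 0 < C' := by positivity
  set K := 4 * T * (2 * FI 1 + (1 + 4 * T) * (9 + C')) with hK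
  have hF1 : 0 ≤ FI 1 := FI_nonneg zero_le_one
  have hfr : ∃ᶠ z : ℝ in atTop, msq 1 (Real.exp (Real.log z - 1)) ≤
      2 * K * Real.log (Real.exp (Real.log z - 1)) := by
    refine (h.and_eventually ((eventually_ge_atTop 2).and
      (Real.tendsto_log_atTop.eventually (eventually_ge_atTop 2)))).mono fun z hz => ?_
    obtain ⟨h1, h2, h3⟩ := hz
    obtain ⟨e, hint⟩ := Q_eq hT (by linarith : 1 ≤ z)
    have hex : ∃ v ∈ Icc (1 - 1 / (2 * T)) (2 - 1 / (2 * T)),
        T * v * (D (kp T v) (z * v) - D (kp T v) v) ≤ C' * Real.log z := by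
      by_contra hcon
      push Not at hcon
      have h4 := intervalIntegral.integral_mono_on (ends_le T) intervalIntegrable_const hint
        (f := fun _ => C' * Real.log z) fun v hv => (hcon v hv).le
      rw [intervalIntegral.integral_const, smul_eq_mul] at h4
      have h5 : QQ T z = ∫ v in (1 - 1 / (2 * T))..(2 - 1 / (2 * T)),
        T * v * (D (kp T v) (z * v) - D (kp T v) v) := e
      rw [← h5] at h4
      have h6 : (2 - 1 / (2 * T) - (1 - 1 / (2 * T))) * (C' * Real.log z) = C' * Real.log z := by ring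
      rw [h6] at h4
      have h7 := le_abs_self C
      have h8 : C * Real.log z < C' * Real.log z := by
        have : C < C' := by rw [hC']; linarith
        have h9 : 0 < Real.log z := by linarith
        gcongr
      linarith
    obtain ⟨v, hv, hvb⟩ := hex
    have hv1 := v_low hT hv.1
    have hv2 := v_up hT0 hv.2
    have hv0 : 0 < v := by linarith
    have hk := kp_pos hT0 hv0
    have hk1 := kp_le hT hv1
    have hk2 : 1 / (2 * T) ≤ kp T v := by
      unfold kp
      apply one_div_le_one_div_of_le (by positivity)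
      nlinarith
    set κ := kp T v with hκ
    have h4 := abs_le.1 (D_abs hk.le (by linarith) (by linarith : (1 : ℝ) / 2 ≤ v) hv2)
    have h5 : D κ (z * v) - D κ v ≤ C' * Real.log z := by
      by_contra hcon
      push Not at hcon
      have h6 : 1 ≤ T * v := by nlinarith
      have h7 : 0 < C' * Real.log z := mul_pos hC0 (by linarith)
      nlinarith
    have h6 : D κ (z * v) ≤ (9 + C') * Real.log z := by nlinarith [h4.2]
    have hzv : 1 ≤ z * v := by nlinarith
    rw [D_eq hk.le hzv] at h6
    have hl := log_pos' hk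
    have hl1 : Real.log (1 + κ) ≤ 1 := by
      have := Real.log_le_sub_one_of_pos (by linarith : 0 < 1 + κ)
      linarith
    have h7 := FI_le_DD (V := Real.log (z * v)) (k := κ) hl (Real.log_nonneg hzv)
      (by rw [Real.exp_log (by linarith)]; ring)
    rw [Real.exp_log (by linarith)] at h7
    have h8 : FI (Real.log (1 + κ)) ≤ FI 1 := FI_mono hl.le hl1
    have h9 : 2 / κ ≤ 4 * T := by
      rw [div_le_iff₀ hk]
      have := mul_le_mul_of_nonneg_left hk2 (by positivity : 0 ≤ 4 * T)
      have e1 : 4 * T * (1 / (2 * T)) = 2 := by field_simp; norm_num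
      rw [e1] at this
      exact this
    have hDD0 := DD_nonneg (Real.log (1 + κ)) (Real.log (z * v)) (Real.log_nonneg hzv)
    have h10 : κ / 2 * FI (Real.log (z * v)) ≤ (2 * FI 1 + (1 + 4 * T) * (9 + C')) * Real.log z := by
      calc κ / 2 * FI (Real.log (z * v)) ≤ (1 + κ) * FI (Real.log (1 + κ)) +
            (1 + 2 / κ) * DD (Real.log (1 + κ)) (Real.log (z * v)) := h7
        _ ≤ 2 * FI 1 + (1 + 4 * T) * ((9 + C') * Real.log z) := by
          gcongr
          · have := FI_nonneg hl.le; exact this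
          · linarith
        _ ≤ 2 * FI 1 * Real.log z + (1 + 4 * T) * ((9 + C') * Real.log z) := by
          have : 2 * FI 1 * 1 ≤ 2 * FI 1 * Real.log z := by gcongr; linarith
          linarith
        _ = _ := by ring
    have h11 : Real.log z - 1 ≤ Real.log (z * v) := by
      rw [Real.log_mul (by positivity) hv0.ne']
      have h12 := Real.one_sub_inv_le_log_of_pos hv0
      have h13 : v⁻¹ ≤ 2 := by
        rw [inv_le_comm₀ hv0 two_pos]
        linarith
      linarith
    have h12 : FI (Real.log z - 1) ≤ FI (Real.log (z * v)) := FI_mono (by linarith) h11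
    have hF := FI_nonneg (Real.log_nonneg hzv)
    have h13 : FI (Real.log (z * v)) ≤ K * Real.log z := by
      have h14 : FI (Real.log (z * v)) = 2 / κ * (κ / 2 * FI (Real.log (z * v))) := by field_simp
      rw [h14]
      have h15 : 0 ≤ (2 * FI 1 + (1 + 4 * T) * (9 + C')) * Real.log z := by
        have : 0 < Real.log z := by linarith
        positivity
      calc 2 / κ * (κ / 2 * FI (Real.log (z * v))) ≤
          4 * T * ((2 * FI 1 + (1 + 4 * T) * (9 + C')) * Real.log z) := by gcongr
        _ = K * Real.log z := by rw [hK]; ring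
    have hK0 : 0 ≤ K := by positivity
    have hV1 : 0 ≤ Real.log z - 1 := by linarith
    have h4' : (1 : ℝ) ≤ Real.exp (Real.log z - 1) := Real.one_le_exp hV1
    rw [msq_eq one_pos h4', Real.log_one, Real.log_exp, FI_eq hV1]
    calc FI (Real.log z - 1) ≤ K * Real.log z := h12.trans h13
      _ ≤ K * (2 * (Real.log z - 1)) := by gcongr; linarith
      _ = 2 * K * (Real.log z - 1) := by ring
  refine ZC_of_freq one_pos le_rfl (C := 2 * K) ?_
  have htop : Tendsto (fun z : ℝ => Real.exp (Real.log z - 1)) atTop atTop :=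
    Real.tendsto_exp_atTop.comp (tendsto_atTop_add_const_right _ _ Real.tendsto_log_atTop)
  have h2 := htop.frequently (p := fun x => msq 1 x ≤ 2 * K * Real.log x) hfr
  refine h2.mono fun x hx => ?_
  rw [sub_self, Real.rpow_zero]
  exact hx

/-- **divergence** -/
theorem mean_top (h : ¬ ZC) {T : ℝ} (hT : 2 ≤ T) :
    Tendsto (fun z => QQ T z / Real.log z) atTop atTop := by
  rw [tendsto_atTop]
  intro C
  by_contra hcon
  rw [not_eventually] at hcon
  refine h (ZC_of_mean hT (C := C) ?_)
  refine (hcon.and_eventually (eventually_gt_atTop 1)).mono fun x hx => ?_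
  obtain ⟨h1, h2⟩ := hx
  have hl : 0 < Real.log x := Real.log_pos h2
  rw [not_le, div_lt_iff₀ hl] at h1
  exact h1.le

end Pool.Agent.J6H10.GE
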