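import Pool.Agent.J6H10.GE.E2

/-! The limit in terms of the zeros; power bounds. -/

set_option autoImplicit false

open MeasureTheory Set Filter Topology

namespace Pool.Agent.J6H10.GE

open Pool.Agent.J6H39.ML (fM NT RHS ZC)
open Pool.Agent.J6H39.IC (V0 V0_eq V0_summable CC CC_cont CC_nonneg CC_summable gz bz bz_nonneg bz_summable qq
  qq_le qq_nonneg term_eq countable_NT J J_mono J_nonneg J_le_CC CC_of_J ZC_of_J log_pos')

/-- the weight of a zero -/
noncomputable def wgt (T : ℝ) (ρ : ℂ) : ℝ :=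
  T * ∫ u in (1 : ℝ)..2, ‖((u + 1 / (2 * T) : ℝ) : ℂ) ^ ρ - ((u - 1 / (2 * T) : ℝ) : ℂ) ^ ρ‖ ^ 2

theorem wgt_eq (hR : RHS) {T : ℝ} (hT : 2 ≤ T) (ρ : NT) :
    wgt T ρ = ∫ v in (1 - 1 / (2 * T))..(2 - 1 / (2 * T)),
      T * v * ‖((1 + kp T v : ℝ) : ℂ) ^ (ρ : ℂ) - 1‖ ^ 2 := by
  have hT0 : 0 < T := by linarith
  unfold wgt
  have h1 := intervalIntegral.integral_comp_sub_right (a := 1) (b := 2)
    (fun v : ℝ => ‖((v + 1 / T : ℝ) : ℂ) ^ (ρ : ℂ) - ((v : ℝ) : ℂ) ^ (ρ : ℂ)‖ ^ 2) (1 / (2 * T))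
  have h2 : ∀ u : ℝ, u - 1 / (2 * T) + 1 / T = u + 1 / (2 * T) := by
    intro u
    field_simp
    ring
  simp_rw [h2] at h1
  rw [h1, ← intervalIntegral.integral_const_mul]
  refine intervalIntegral.integral_congr fun v hv => ?_
  rw [uIcc_of_le (ends_le T)] at hv
  have hv1 := v_low hT hv.1
  have hv0 : 0 < v := by linarith
  have hk := kp_pos hT0 hv0
  have e1 : v + 1 / T = v * (1 + kp T v) := by
    unfold kp
    field_simp
  beta_reduce
  rw [e1, Complex.ofReal_mul, Complex.mul_cpow_ofReal_nonneg hv0.le (by linarith)]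
  have e2 : ((v : ℝ) : ℂ) ^ (ρ : ℂ) * ((1 + kp T v : ℝ) : ℂ) ^ (ρ : ℂ) - ((v : ℝ) : ℂ) ^ (ρ : ℂ) =
      ((v : ℝ) : ℂ) ^ (ρ : ℂ) * (((1 + kp T v : ℝ) : ℂ) ^ (ρ : ℂ) - 1) := by ring
  rw [e2, norm_mul, mul_pow, Complex.norm_cpow_eq_rpow_re_of_pos hv0, (hR ρ ρ.2).1]
  have e3 : (v ^ (1 / 2 : ℝ)) ^ 2 = v := by
    rw [← Real.rpow_natCast, ← Real.rpow_mul hv0.le]
    norm_num
  rw [e3]
  ring

theorem kp_meas (T : ℝ) : Measurable (kp T) := by
  unfold kp
  exact measurable_const.div (measurable_id.const_mul T)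

/-- **the limit as a sum over the zeros** -/
theorem Lam_sum (h : ZC) {T : ℝ} (hT : 2 ≤ T) :
    HasSum (fun ρ : NT => wgt T ρ / ‖(ρ : ℂ) * deriv riemannZeta ρ‖ ^ 2) (Lam T) := by
  have hT0 : 0 < T := by linarith
  have := countable_NT
  have h1 : HasSum (fun ρ : NT => ∫ v in (1 - 1 / (2 * T))..(2 - 1 / (2 * T)),
      T * v * (bz ρ * qq (gz ρ) (Real.log (1 + kp T v)))) (Lam T) := by
    unfold Lam
    refine intervalIntegral.hasSum_integral_of_dominated_convergence
      (fun (ρ : NT) _ => T * 2 * (bz ρ * 8)) ?_ ?_ ?_ ?_ ?_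
    · intro ρ
      have hl : Measurable fun v => Real.log (1 + kp T v) :=
        Real.measurable_log.comp ((kp_meas T).const_add 1)
      have hq : Measurable fun v => qq (gz ρ) (Real.log (1 + kp T v)) := by
        have hq1 : Measurable fun l : ℝ => qq (gz ρ) l := by
          unfold qq
          fun_prop
        exact hq1.comp hl
      have hm : Measurable fun v => T * v * (bz ρ * qq (gz ρ) (Real.log (1 + kp T v))) :=
        (measurable_id.const_mul T).mul (hq.const_mul (bz ρ))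
      exact hm.aestronglyMeasurable
    · intro ρ
      refine Eventually.of_forall fun v hv => ?_
      rw [uIoc_of_le (ends_le T)] at hv
      have hv1 := v_low hT hv.1.le
      have hv2 := v_up hT0 hv.2
      have hk := kp_pos hT0 (by linarith : 0 < v)
      have hk1 := kp_le hT hv1
      have hl := log_pos' hk
      have h2 := qq_le hl.le (gz ρ)
      rw [Real.exp_log (by linarith)] at h2
      have h3 := qq_nonneg (gz ρ) (Real.log (1 + kp T v))
      have h4 := bz_nonneg ρ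
      have hv0 : 0 < v := by linarith
      rw [Real.norm_eq_abs, abs_of_nonneg (by positivity)]
      gcongr
      linarith
    · refine Eventually.of_forall fun v _ => ?_
      exact ((bz_summable h).mul_right 8).mul_left _
    · exact intervalIntegrable_const
    · refine Eventually.of_forall fun v hv => ?_
      rw [uIoc_of_le (ends_le T)] at hv
      have hv1 := v_low hT hv.1.le
      have hk := kp_pos hT0 (by linarith : 0 < v)
      have h2 := (V0_summable h hk).hasSum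
      have h3 : HasSum (fun ρ : NT => bz ρ * qq (gz ρ) (Real.log (1 + kp T v))) (V0 (kp T v)) := by
        have e : (fun ρ : NT => bz ρ * qq (gz ρ) (Real.log (1 + kp T v))) = fun ρ : NT =>
            ‖((1 + kp T v : ℝ) : ℂ) ^ (ρ : ℂ) - 1‖ ^ 2 / ‖(ρ : ℂ) * deriv riemannZeta ρ‖ ^ 2 := by
          funext ρ
          exact (term_eq h.1 hk ρ).symm
        rw [e]
        exact h2
      exact h3.mul_left _
  refine h1.congr_fun ?_
  intro ρ
  rw [wgt_eq h.1 hT, ← intervalIntegral.integral_div]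
  refine intervalIntegral.integral_congr fun v hv => ?_
  rw [uIcc_of_le (ends_le T)] at hv
  have hv1 := v_low hT hv.1
  have hk := kp_pos hT0 (by linarith : 0 < v)
  beta_reduce
  rw [← term_eq h.1 hk ρ]
  ring

theorem V0_cont (h : ZC) : ContinuousOn V0 (Ioi 0) := by
  have h1 : ContinuousOn (fun κ : ℝ => CC gz bz (Real.log (1 + κ))) (Ioi 0) := by
    refine (CC_cont bz_nonneg (bz_summable h)).comp_continuousOn ?_
    refine ContinuousOn.log (by fun_prop) fun κ hκ => ?_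
    have : 0 < κ := hκ
    positivity
  exact h1.congr fun κ hκ => V0_eq h.1 hκ

theorem V0_nonneg (κ : ℝ) : 0 ≤ V0 κ := by
  unfold V0
  exact tsum_nonneg fun ρ => by positivity

theorem int_ii (h : ZC) {T : ℝ} (hT : 2 ≤ T) :
    IntervalIntegrable (fun v => T * v * V0 (kp T v)) volume (1 - 1 / (2 * T)) (2 - 1 / (2 * T)) := by
  have hT0 : 0 < T := by linarith
  refine ContinuousOn.intervalIntegrable ?_
  rw [uIcc_of_le (ends_le T)]
  have hpos : ∀ v ∈ Icc (1 - 1 / (2 * T)) (2 - 1 / (2 * T)), 0 < v := fun v hv => by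
    have := v_low hT hv.1
    linarith
  refine ContinuousOn.mul (by fun_prop) ((V0_cont h).comp ?_ fun v hv => kp_pos hT0 (hpos v hv))
  unfold kp
  refine ContinuousOn.div (by fun_prop) (by fun_prop) fun v hv => ?_
  have := hpos v hv
  positivity

/-- the lower bound -/
theorem J_le_Lam (h : ZC) {T : ℝ} (hT : 8 ≤ T) : J (T / 8) ≤ 16 * T * Lam T := by
  have hT0 : 0 < T := by linarith
  have h1 := intervalIntegral.integral_mono_on (ends_le T) intervalIntegrable_const
    ((int_ii h (by linarith : 2 ≤ T)).const_mul (16 * T)) (f := fun _ => J (T / 8)) fun v hv => ?_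
  · rw [intervalIntegral.integral_const, intervalIntegral.integral_const_mul, smul_eq_mul] at h1
    have e : (2 - 1 / (2 * T) - (1 - 1 / (2 * T))) * J (T / 8) = J (T / 8) := by ring
    rw [e] at h1
    exact h1
  · have hv1 := v_low (by linarith : 2 ≤ T) hv.1
    have hv2 := v_up hT0 hv.2
    have hv0 : 0 < v := by linarith
    have hk := kp_pos hT0 hv0
    have h2 : T / 8 ≤ T * v / 4 := by nlinarith
    have h3 := J_mono h.1 h2
    have h4 := J_le_CC h (T := T * v / 4) (by nlinarith)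
    have e1 : 4 * (T * v / 4) = T * v := by ring
    have e2 : (T * v)⁻¹ = kp T v := by unfold kp; rw [one_div]
    rw [e1, e2, ← V0_eq h.1 hk] at h4
    have h5 := V0_nonneg (kp T v)
    have h6 : (T * v) ^ 2 * V0 (kp T v) ≤ 2 * T * (T * v * V0 (kp T v)) := by
      have e3 : (T * v) ^ 2 * V0 (kp T v) = v * (T * (T * v * V0 (kp T v))) := by ring
      have e4 : 2 * T * (T * v * V0 (kp T v)) = 2 * (T * (T * v * V0 (kp T v))) := by ring
      rw [e3, e4]
      gcongr
    beta_reduce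
    linarith

/-- the upper bound -/
theorem Lam_le (hR : RHS) {C δ : ℝ} (hδ : 0 < δ) (hJ : ∀ T : ℝ, 1 ≤ T → J T ≤ C * T ^ (2 - δ)) :
    ∃ K : ℝ, 0 ≤ K ∧ ∀ T : ℝ, 2 ≤ T → Lam T ≤ K * T ^ (1 - δ) := by
  obtain ⟨hC, h, -⟩ := ZC_of_J hR hδ hJ
  have h12 : (1 / 2 : ℝ) ^ δ < 1 := Real.rpow_lt_one (by norm_num) (by norm_num) hδ
  have h13 : 0 < 1 - (1 / 2 : ℝ) ^ δ := by linarith
  set K0 := 68 * (4 * (2 * C) / (1 - (1 / 2 : ℝ) ^ δ)) with hK0
  have hK00 : 0 ≤ K0 := by positivity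
  refine ⟨2 * K0 * (4 / 3 : ℝ) ^ δ, by positivity, fun T hT => ?_⟩
  have hT0 : 0 < T := by linarith
  have h1 := intervalIntegral.integral_mono_on (ends_le T) (int_ii h hT) intervalIntegrable_const
    (g := fun _ => 2 * K0 * (4 / 3 : ℝ) ^ δ * T ^ (1 - δ)) fun v hv => ?_
  · rw [intervalIntegral.integral_const, smul_eq_mul] at h1
    have e : (2 - 1 / (2 * T) - (1 - 1 / (2 * T))) * (2 * K0 * (4 / 3 : ℝ) ^ δ * T ^ (1 - δ)) =
      2 * K0 * (4 / 3 : ℝ) ^ δ * T ^ (1 - δ) := by ring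
    rw [e] at h1
    exact h1
  · have hv1 := v_low hT hv.1
    have hv2 := v_up hT0 hv.2
    have hv0 : 0 < v := by linarith
    have hk := kp_pos hT0 hv0
    have hk1 := kp_le hT hv1
    have h2 := CC_of_J hR hδ hJ hk (by linarith)
    rw [← V0_eq hR hk, ← hK0] at h2
    have h3 : kp T v ≤ 4 / 3 / T := by
      unfold kp
      rw [div_le_div_iff₀ (by positivity) hT0]
      nlinarith
    have h4 : (kp T v) ^ δ ≤ (4 / 3 / T) ^ δ := Real.rpow_le_rpow hk.le h3 hδ.le
    rw [Real.div_rpow (by norm_num) hT0.le] at h4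
    have h5 : T ^ (1 - δ) = T / T ^ δ := by rw [Real.rpow_sub hT0, Real.rpow_one]
    have h6 : 0 < T ^ δ := by positivity
    beta_reduce
    rw [h5]
    calc T * v * V0 (kp T v) ≤ T * 2 * (K0 * ((4 / 3 : ℝ) ^ δ / T ^ δ)) := by
          gcongr
          · exact V0_nonneg _
          · exact h2.trans (by gcongr)
      _ = _ := by ring

/-- **power bounds** -/
theorem power_iff {δ : ℝ} (hδ : 0 < δ) :
    ((∀ ρ ∈ NT, ρ.re = 1 / 2 ∧ deriv riemannZeta ρ ≠ 0) ∧
      ∃ C : ℝ, ∀ T : ℝ, 1 ≤ T → J T ≤ C * T ^ (2 - δ)) ↔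
    ∃ C : ℝ, ∀ T : ℝ, 2 ≤ T → ∀ᶠ z : ℝ in atTop, QQ T z / Real.log z ≤ C * T ^ (1 - δ) := by
  constructor
  · rintro ⟨hR, C, hJ⟩
    obtain ⟨-, h, -⟩ := ZC_of_J hR hδ hJ
    obtain ⟨K, hK, hL⟩ := Lam_le hR hδ hJ
    refine ⟨K + 1, fun T hT => ?_⟩
    have hT0 : 0 < T := by linarith
    have h1 := mean_lim h hT
    have h2 : Lam T < (K + 1) * T ^ (1 - δ) := by
      have h3 := hL T hT
      have h4 : 0 < T ^ (1 - δ) := by positivity
      linarith
    exact (h1.eventually (gt_mem_nhds h2)).mono fun z hz => hz.le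
  · rintro ⟨C, hC⟩
    have h : ZC := by
      refine ZC_of_mean le_rfl (C := C * 2 ^ (1 - δ)) (Eventually.frequently ?_)
      filter_upwards [hC 2 le_rfl, eventually_gt_atTop 1] with z hz hz1
      have hl : 0 < Real.log z := Real.log_pos hz1
      rwa [div_le_iff₀ hl] at hz
    refine ⟨h.1, 128 * C * 8 ^ (1 - δ), fun T hT => ?_⟩
    have hT0 : 0 < T := by linarith
    have h1 : Lam (8 * T) ≤ C * (8 * T) ^ (1 - δ) :=
      le_of_tendsto (mean_lim h (by linarith)) (hC (8 * T) (by linarith))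
    have h2 := J_le_Lam h (T := 8 * T) (by linarith)
    have e1 : 8 * T / 8 = T := by ring
    rw [e1] at h2
    have h3 : T ^ (2 - δ) = T * T ^ (1 - δ) := by
      have e2 : 2 - δ = 1 + (1 - δ) := by ring
      rw [e2, Real.rpow_add hT0, Real.rpow_one]
    have h4 : (8 * T) ^ (1 - δ) = 8 ^ (1 - δ) * T ^ (1 - δ) := Real.mul_rpow (by norm_num) hT0.le
    rw [h4] at h1
    calc J T ≤ 16 * (8 * T) * Lam (8 * T) := h2
      _ ≤ 16 * (8 * T) * (C * (8 ^ (1 - δ) * T ^ (1 - δ))) := by gcongr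
      _ = _ := by rw [h3]; ring

end Pool.Agent.J6H10.GE
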