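import Mathlib

/-! A Tauberian theorem for dyadic means of slowly oscillating functions. -/

set_option autoImplicit false

open MeasureTheory Set Filter Topology

namespace Pool.Agent.J6H10.GE

/-- the dyadic iteration -/
theorem dyadic_iter {e : ℝ → ℝ} {ε T0 M : ℝ} (hε : 0 ≤ ε) (hT0 : 0 < T0)
    (h : ∀ T, T0 ≤ T → |e (2 * T) - e T| ≤ ε * T) {s : ℝ} (hs : T0 ≤ s) (hM : |e s| ≤ M) (n : ℕ) :
    |e (2 ^ n * s)| ≤ M + ε * (2 ^ n * s) := by
  have hs0 : 0 < s := by linarith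
  induction n with
  | zero =>
    rw [pow_zero, one_mul]
    have : 0 ≤ ε * s := by positivity
    linarith
  | succ n ih =>
    have h1 : T0 ≤ 2 ^ n * s := by
      have : (1 : ℝ) ≤ 2 ^ n := one_le_pow₀ (by norm_num)
      nlinarith
    have h2 := h (2 ^ n * s) h1
    have e1 : 2 ^ (n + 1) * s = 2 * (2 ^ n * s) := by ring
    rw [e1]
    have h3 : |e (2 * (2 ^ n * s))| ≤ |e (2 * (2 ^ n * s)) - e (2 ^ n * s)| + |e (2 ^ n * s)| := by
      have := abs_add_le (e (2 * (2 ^ n * s)) - e (2 ^ n * s)) (e (2 ^ n * s))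
      rwa [sub_add_cancel] at this
    linarith

/-- a function with small dyadic increments is small -/
theorem small_of_dyadic {e : ℝ → ℝ} {L : ℝ} (hL : 0 ≤ L) (hb : ∀ t, 1 ≤ t → |e t| ≤ L * t)
    (h : ∀ ε : ℝ, 0 < ε → ∃ T0 : ℝ, 1 ≤ T0 ∧ ∀ T, T0 ≤ T → |e (2 * T) - e T| ≤ ε * T) {ε : ℝ} (hε : 0 < ε) :
    ∃ T1 : ℝ, 1 ≤ T1 ∧ ∀ T, T1 ≤ T → |e T| ≤ ε * T := by
  obtain ⟨T0, hT0, h0⟩ := h (ε / 2) (by positivity)
  refine ⟨max T0 (L * (2 * T0) / (ε / 2)), hT0.trans (le_max_left _ _), fun T hT => ?_⟩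
  have hTT : T0 ≤ T := (le_max_left _ _).trans hT
  have hT2 : L * (2 * T0) / (ε / 2) ≤ T := (le_max_right _ _).trans hT
  have hTp : 0 < T0 := by linarith
  have hT3 : 0 < T := by linarith
  obtain ⟨n, hn1, hn2⟩ := exists_nat_pow_near (x := T / T0) (y := 2) ((one_le_div hTp).2 hTT) (by norm_num)
  have h2n : (0 : ℝ) < 2 ^ n := by positivity
  set s := T / 2 ^ n with hs
  have e1 : T = 2 ^ n * s := by rw [hs]; field_simp
  have hs1 : T0 ≤ s := by
    rw [hs, le_div_iff₀ h2n]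
    rw [le_div_iff₀ hTp] at hn1
    linarith
  have hs2 : s ≤ 2 * T0 := by
    rw [hs, div_le_iff₀ h2n]
    rw [div_lt_iff₀ hTp, pow_succ] at hn2
    linarith
  have hM : |e s| ≤ L * (2 * T0) := by
    refine (hb s (by linarith)).trans ?_
    gcongr
  have h3 := dyadic_iter (by positivity) hTp h0 hs1 hM n
  rw [← e1] at h3
  rw [div_le_iff₀ (by positivity)] at hT2
  linarith

/-- **the Tauberian theorem** -/
theorem taub {Φ : ℝ → ℝ} {B K : ℝ} (hc : ContinuousOn Φ (Ioi 0)) (h0 : ∀ t, 1 ≤ t → 0 ≤ Φ t)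
    (hK : ∀ t, 1 ≤ t → Φ t ≤ K)
    (hosc : ∀ η : ℝ, 0 < η → η ≤ 1 → ∀ t t' : ℝ, 1 ≤ t → t ≤ t' → t' ≤ (1 + η ^ 2) * t →
      |Φ t' - Φ t| ≤ 11 * K * η)
    (hmean : Tendsto (fun T : ℝ => T⁻¹ * ∫ t in (T - 1 / 2)..(2 * T - 1 / 2), Φ t) atTop (𝓝 B)) :
    Tendsto Φ atTop (𝓝 B) := by
  have hK0 : 0 ≤ K := (h0 1 le_rfl).trans (hK 1 le_rfl)
  have hii : ∀ {a b : ℝ}, 0 < a → 0 < b → IntervalIntegrable Φ volume a b := by
    intro a b ha hb
    refine (hc.mono fun x hx => ?_).intervalIntegrable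
    have : min a b ≤ x := hx.1
    exact lt_of_lt_of_le (lt_min ha hb) this
  have hi0 : ∀ {a b : ℝ}, 1 ≤ a → a ≤ b → 0 ≤ (∫ t in a..b, Φ t) ∧ (∫ t in a..b, Φ t) ≤ K * (b - a) := by
    intro a b ha hab
    constructor
    · exact intervalIntegral.integral_nonneg hab fun t ht => h0 t (ha.trans ht.1)
    · have h1 := intervalIntegral.integral_mono_on hab (hii (by linarith) (by linarith))
        (intervalIntegrable_const (c := K)) fun t ht => hK t (ha.trans ht.1)
      rw [intervalIntegral.integral_const, smul_eq_mul] at h1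
      linarith
  set G : ℝ → ℝ := fun t => ∫ x in (1 : ℝ)..t, Φ x with hG
  have hGsub : ∀ {a b : ℝ}, 0 < a → 0 < b → G b - G a = ∫ t in a..b, Φ t := by
    intro a b ha hb
    have h1 := intervalIntegral.integral_add_adjacent_intervals (hii one_pos ha) (hii ha hb)
    rw [hG]
    linarith
  set e : ℝ → ℝ := fun t => G t - B * t with he
  have hB : ∀ t, 1 ≤ t → |e t| ≤ (K + |B|) * t := by
    intro t ht
    have h1 := hi0 le_rfl ht
    have h2 : |G t| ≤ K * t := by
      rw [abs_of_nonneg h1.1]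
      have : K * (t - 1) ≤ K * t := by gcongr; linarith
      exact h1.2.trans this
    have h3 : |e t| ≤ |G t| + |B * t| := abs_sub _ _
    rw [abs_mul, abs_of_pos (by linarith : 0 < t)] at h3
    linarith
  have hdy : ∀ ε : ℝ, 0 < ε → ∃ T0 : ℝ, 1 ≤ T0 ∧ ∀ T, T0 ≤ T → |e (2 * T) - e T| ≤ ε * T := by
    intro ε hε
    have h1 := hmean.eventually (Metric.ball_mem_nhds B (by positivity : 0 < ε / 2))
    obtain ⟨T0, hT0⟩ := eventually_atTop.1 h1
    refine ⟨max (max T0 2) (K / ε), (by norm_num : (1 : ℝ) ≤ 2).trans ((le_max_right _ _).trans (le_max_left _ _)),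
      fun T hT => ?_⟩
    have hT1 : T0 ≤ T := ((le_max_left _ _).trans (le_max_left _ _)).trans hT
    have hT2 : 2 ≤ T := ((le_max_right _ _).trans (le_max_left _ _)).trans hT
    have hT3 : K / ε ≤ T := (le_max_right _ _).trans hT
    rw [div_le_iff₀ hε] at hT3
    have hTp : 0 < T := by linarith
    have h2 := hT0 T hT1
    rw [Real.dist_eq] at h2
    have h3 : |(∫ t in (T - 1 / 2)..(2 * T - 1 / 2), Φ t) - B * T| ≤ ε / 2 * T := by
      have e1 : (∫ t in (T - 1 / 2)..(2 * T - 1 / 2), Φ t) - B * T =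
        T * (T⁻¹ * (∫ t in (T - 1 / 2)..(2 * T - 1 / 2), Φ t) - B) := by field_simp
      rw [e1, abs_mul, abs_of_pos hTp, mul_comm]
      gcongr
    have h4 : G (2 * T) - G T = (∫ t in (T - 1 / 2)..(2 * T - 1 / 2), Φ t) -
        (∫ t in (T - 1 / 2)..T, Φ t) + ∫ t in (2 * T - 1 / 2)..(2 * T), Φ t := by
      have h5 := intervalIntegral.integral_add_adjacent_intervals
        (hii (by linarith : 0 < T - 1 / 2) hTp) (hii hTp (by linarith : 0 < 2 * T - 1 / 2))
      have h6 := intervalIntegral.integral_add_adjacent_intervals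
        (hii hTp (by linarith : 0 < 2 * T - 1 / 2)) (hii (by linarith : 0 < 2 * T - 1 / 2)
          (by linarith : 0 < 2 * T))
      rw [hGsub hTp (by linarith)]
      linarith
    have h5 := hi0 (by linarith : 1 ≤ T - 1 / 2) (by linarith : T - 1 / 2 ≤ T)
    have h6 := hi0 (by linarith : 1 ≤ 2 * T - 1 / 2) (by linarith : 2 * T - 1 / 2 ≤ 2 * T)
    have e2 : e (2 * T) - e T = G (2 * T) - G T - B * T := by rw [he]; ring
    rw [e2, h4]
    have h7 := abs_le.1 h3
    have h8 := h5.2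
    have h9 := h6.2
    rw [abs_le]
    constructor
    · linarith [h5.1, h6.1, h7.1]
    · linarith [h5.1, h6.1, h7.2]
  rw [Metric.tendsto_atTop]
  intro ε hε
  -- choose η
  obtain ⟨η, hη0, hη1, hη⟩ : ∃ η : ℝ, 0 < η ∧ η ≤ 1 ∧ 11 * K * η ≤ ε / 4 := by
    refine ⟨min 1 (ε / (44 * (K + 1))), lt_min one_pos (by positivity), min_le_left _ _, ?_⟩
    calc 11 * K * min 1 (ε / (44 * (K + 1))) ≤ 11 * (K + 1) * (ε / (44 * (K + 1))) := by
          gcongr
          · linarith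
          · exact min_le_right _ _
      _ = ε / 4 := by field_simp; ring
  set ε' := ε * η ^ 2 / 12 with hε'
  have hε'0 : 0 < ε' := by positivity
  obtain ⟨T1, hT1, h1⟩ := small_of_dyadic (by positivity) hB hdy hε'0
  refine ⟨T1, fun t ht => ?_⟩
  have ht1 : 1 ≤ t := hT1.trans ht
  have ht0 : 0 < t := by linarith
  set t' := (1 + η ^ 2) * t with ht'
  have htt : t ≤ t' := by
    have : 0 ≤ η ^ 2 * t := by positivity
    rw [ht']
    linarith
  have hdt : t' - t = η ^ 2 * t := by rw [ht']; ring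
  have h2 := h1 t ht
  have h3 := h1 t' (ht.trans htt)
  have h4 : |(∫ x in t..t', Φ x) - B * (t' - t)| ≤ ε' * t + ε' * t' := by
    rw [← hGsub ht0 (by linarith)]
    have e1 : G t' - G t - B * (t' - t) = e t' - e t := by rw [he]; ring
    rw [e1]
    have := abs_sub (e t') (e t)
    linarith
  have h5 : |(∫ x in t..t', Φ x) - Φ t * (t' - t)| ≤ 11 * K * η * (t' - t) := by
    have h6 : (∫ x in t..t', Φ x) - Φ t * (t' - t) = ∫ x in t..t', (Φ x - Φ t) := by
      rw [intervalIntegral.integral_sub (hii ht0 (by linarith)) intervalIntegrable_const,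
        intervalIntegral.integral_const, smul_eq_mul]
      ring
    rw [h6, ← Real.norm_eq_abs]
    have h7 : ∀ x ∈ Set.uIoc t t', ‖Φ x - Φ t‖ ≤ 11 * K * η := by
      intro x hx
      rw [uIoc_of_le htt] at hx
      rw [Real.norm_eq_abs]
      exact hosc η hη0 hη1 t x ht1 hx.1.le hx.2
    have h8 := intervalIntegral.norm_integral_le_of_norm_le_const h7
    rwa [abs_of_nonneg (by linarith : 0 ≤ t' - t)] at h8
  have hη2 : 0 < η ^ 2 := by positivity
  have h9 : |Φ t - B| * (η ^ 2 * t) ≤ (3 * ε' + 11 * K * η * η ^ 2) * t := by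
    have e1 : |Φ t - B| * (η ^ 2 * t) = |Φ t * (t' - t) - B * (t' - t)| := by
      rw [← sub_mul, abs_mul, hdt, abs_of_pos (by positivity : 0 < η ^ 2 * t)]
    rw [e1]
    have h10 : |Φ t * (t' - t) - B * (t' - t)| ≤ |(∫ x in t..t', Φ x) - B * (t' - t)| +
        |(∫ x in t..t', Φ x) - Φ t * (t' - t)| := by
      have := abs_sub ((∫ x in t..t', Φ x) - B * (t' - t)) ((∫ x in t..t', Φ x) - Φ t * (t' - t))
      have e2 : (∫ x in t..t', Φ x) - B * (t' - t) - ((∫ x in t..t', Φ x) - Φ t * (t' - t)) =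
        Φ t * (t' - t) - B * (t' - t) := by ring
      rwa [e2] at this
    have h11 : t' ≤ 2 * t := by
      rw [ht']
      have : η ^ 2 ≤ 1 := by nlinarith
      nlinarith
    have h12 : ε' * t' ≤ ε' * (2 * t) := by gcongr
    rw [hdt] at h5 h4 h10 ⊢
    linarith
  have h10 : |Φ t - B| ≤ 3 * ε' / η ^ 2 + 11 * K * η := by
    have h11 : 0 < η ^ 2 * t := by positivity
    have h12 : (3 * ε' + 11 * K * η * η ^ 2) * t = (3 * ε' / η ^ 2 + 11 * K * η) * (η ^ 2 * t) := by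
      field_simp
    rw [h12] at h9
    exact le_of_mul_le_mul_right h9 h11
  have h11 : 3 * ε' / η ^ 2 = ε / 4 := by
    rw [hε']
    field_simp
    ring
  rw [Real.dist_eq]
  linarith

/-- the mean of a convergent function -/
theorem mean_of_lim {Φ : ℝ → ℝ} {B : ℝ} (hc : ContinuousOn Φ (Ioi 0)) (h : Tendsto Φ atTop (𝓝 B)) :
    Tendsto (fun T : ℝ => T⁻¹ * ∫ t in (T - 1 / 2)..(2 * T - 1 / 2), Φ t) atTop (𝓝 B) := by
  rw [Metric.tendsto_atTop] at h ⊢
  intro ε hε
  obtain ⟨N, hN⟩ := h (ε / 2) (by positivity)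
  refine ⟨max (N + 1) 1, fun T hT => ?_⟩
  have hT1 : N + 1 ≤ T := (le_max_left _ _).trans hT
  have hT2 : 1 ≤ T := (le_max_right _ _).trans hT
  have hTp : 0 < T := by linarith
  have hle : T - 1 / 2 ≤ 2 * T - 1 / 2 := by linarith
  have hii : IntervalIntegrable Φ volume (T - 1 / 2) (2 * T - 1 / 2) := by
    refine (hc.mono fun x hx => ?_).intervalIntegrable
    rw [uIcc_of_le hle] at hx
    have := hx.1
    show 0 < x
    linarith
  have h1 : |(∫ t in (T - 1 / 2)..(2 * T - 1 / 2), Φ t) - B * T| ≤ ε / 2 * T := by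
    have h6 : (∫ t in (T - 1 / 2)..(2 * T - 1 / 2), Φ t) - B * T =
        ∫ x in (T - 1 / 2)..(2 * T - 1 / 2), (Φ x - B) := by
      rw [intervalIntegral.integral_sub hii intervalIntegrable_const,
        intervalIntegral.integral_const, smul_eq_mul]
      ring
    rw [h6, ← Real.norm_eq_abs]
    have h7 : ∀ x ∈ Set.uIoc (T - 1 / 2) (2 * T - 1 / 2), ‖Φ x - B‖ ≤ ε / 2 := by
      intro x hx
      rw [uIoc_of_le hle] at hx
      have h8 := hN x (by linarith [hx.1])
      rw [Real.dist_eq] at h8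
      exact h8.le
    have h8 := intervalIntegral.norm_integral_le_of_norm_le_const h7
    have e1 : 2 * T - 1 / 2 - (T - 1 / 2) = T := by ring
    rwa [e1, abs_of_pos hTp] at h8
  rw [Real.dist_eq]
  have e1 : T⁻¹ * (∫ t in (T - 1 / 2)..(2 * T - 1 / 2), Φ t) - B =
      T⁻¹ * ((∫ t in (T - 1 / 2)..(2 * T - 1 / 2), Φ t) - B * T) := by field_simp
  rw [e1, abs_mul, abs_of_pos (inv_pos.2 hTp)]
  calc T⁻¹ * |(∫ t in (T - 1 / 2)..(2 * T - 1 / 2), Φ t) - B * T| ≤ T⁻¹ * (ε / 2 * T) := by gcongr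
    _ = ε / 2 := by field_simp
    _ < ε := by linarith

end Pool.Agent.J6H10.GE
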