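import Pool.Agent.J6H10.GE.E3
import Pool.Agent.J6H10.GE.E4

/-! The asymptotic formula. -/

set_option autoImplicit false

open MeasureTheory Set Filter Topology

namespace Pool.Agent.J6H10.GE

open Pool.Agent.H448R2.GC (Mer MH VV)
open Pool.Agent.J6H39.ML (fM NT RHS ZC pt pt_re)
open Pool.Agent.J6H39.IC (V0 V0_eq V0_summable CC CC_cont CC_nonneg CC_summable gz bz bz_nonneg bz_summable qq
  qq_le qq_nonneg qq_norm term_eq countable_NT J J_mono J_nonneg J_le_CC CC_of_J ZC_of_J log_pos' lim_change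
  tauber JJ JJ_eq)

theorem par_ineq (x y : ℂ) {η : ℝ} (hη : 0 < η) :
    ‖x + y‖ ^ 2 ≤ (1 + η) * ‖x‖ ^ 2 + (1 + 1 / η) * ‖y‖ ^ 2 := by
  have h1 : ‖x + y‖ ^ 2 ≤ (‖x‖ + ‖y‖) ^ 2 := by
    gcongr
    exact norm_add_le x y
  have h2 : 2 * (‖x‖ * ‖y‖) ≤ η * ‖x‖ ^ 2 + 1 / η * ‖y‖ ^ 2 := by
    have e3 : η * ‖x‖ ^ 2 + 1 / η * ‖y‖ ^ 2 - 2 * (‖x‖ * ‖y‖) = (η * ‖x‖ - ‖y‖) ^ 2 / η := by
      field_simp
      ring
    have e4 : 0 ≤ (η * ‖x‖ - ‖y‖) ^ 2 / η := by positivity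
    linarith
  nlinarith

theorem qq_add (γ l m : ℝ) {η : ℝ} (hη : 0 < η) :
    qq γ (l + m) ≤ (1 + η) * qq γ l + (1 + 1 / η) * (Real.exp l * qq γ m) ∧
    qq γ l ≤ (1 + η) * qq γ (l + m) + (1 + 1 / η) * (Real.exp l * qq γ m) := by
  have e1 : ‖Complex.exp (pt γ * l) * (Complex.exp (pt γ * m) - 1)‖ ^ 2 = Real.exp l * qq γ m := by
    rw [norm_mul, mul_pow, qq_norm, Complex.norm_exp]
    congr 1
    have e2 : (pt γ * (l : ℂ)).re = l / 2 := by
      rw [Complex.re_mul_ofReal, pt_re]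
      ring
    rw [e2, ← Real.exp_nat_mul]
    congr 1
    push_cast
    ring
  have e2 : Complex.exp (pt γ * ((l + m : ℝ) : ℂ)) - 1 =
      (Complex.exp (pt γ * l) - 1) + Complex.exp (pt γ * l) * (Complex.exp (pt γ * m) - 1) := by
    rw [Complex.ofReal_add, mul_add, Complex.exp_add]
    ring
  have e3 : Complex.exp (pt γ * l) - 1 = (Complex.exp (pt γ * ((l + m : ℝ) : ℂ)) - 1) +
      -(Complex.exp (pt γ * l) * (Complex.exp (pt γ * m) - 1)) := by
    rw [e2]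
    ring
  constructor
  · rw [← qq_norm γ (l + m), ← qq_norm γ l, ← e1, e2]
    exact par_ineq _ _ hη
  · have h := par_ineq (Complex.exp (pt γ * ((l + m : ℝ) : ℂ)) - 1)
      (-(Complex.exp (pt γ * l) * (Complex.exp (pt γ * m) - 1))) hη
    rw [← e3, norm_neg, e1, qq_norm, qq_norm] at h
    exact h

theorem CC_add (h : ZC) (l m : ℝ) {η : ℝ} (hη : 0 < η) :
    CC gz bz (l + m) ≤ (1 + η) * CC gz bz l + (1 + 1 / η) * (Real.exp l * CC gz bz m) ∧
    CC gz bz l ≤ (1 + η) * CC gz bz (l + m) + (1 + 1 / η) * (Real.exp l * CC gz bz m) := by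
  have s1 := CC_summable (g := gz) bz_nonneg (bz_summable h) l
  have s2 := CC_summable (g := gz) bz_nonneg (bz_summable h) m
  have s3 := CC_summable (g := gz) bz_nonneg (bz_summable h) (l + m)
  unfold CC
  rw [← tsum_mul_left, ← tsum_mul_left, ← tsum_mul_left, ← tsum_mul_left,
    ← (s1.mul_left _).tsum_add ((s2.mul_left _).mul_left _),
    ← (s3.mul_left _).tsum_add ((s2.mul_left _).mul_left _)]
  constructor
  · refine s3.tsum_le_tsum (fun ρ => ?_) ((s1.mul_left _).add ((s2.mul_left _).mul_left _))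
    have h1 := mul_le_mul_of_nonneg_left (qq_add (gz ρ) l m hη).1 (bz_nonneg ρ)
    refine h1.trans (le_of_eq ?_)
    ring
  · refine s1.tsum_le_tsum (fun ρ => ?_) ((s3.mul_left _).add ((s2.mul_left _).mul_left _))
    have h1 := mul_le_mul_of_nonneg_left (qq_add (gz ρ) l m hη).2 (bz_nonneg ρ)
    refine h1.trans (le_of_eq ?_)
    ring

/-- slow oscillation in terms of the ratio -/
theorem V0_osc (h : ZC) {K : ℝ} (hK : ∀ κ : ℝ, 0 < κ → κ ≤ 1 → V0 κ ≤ K * κ) {η : ℝ} (hη : 0 < η) {κ κ' : ℝ}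
    (hκ' : 0 < κ') (hlt : κ' < κ) (hκ1 : κ ≤ 1) :
    V0 κ ≤ (1 + η) * V0 κ' + (1 + 1 / η) * (K * (κ - κ')) ∧
    V0 κ' ≤ (1 + η) * V0 κ + (1 + 1 / η) * (K * (κ - κ')) := by
  set κ2 := (κ - κ') / (1 + κ') with hκ2
  have hκ20 : 0 < κ2 := div_pos (by linarith) (by linarith)
  have hκ21 : κ2 ≤ 1 := by
    rw [hκ2, div_le_one (by linarith)]
    linarith
  have hprod : 1 + κ = (1 + κ') * (1 + κ2) := by
    rw [hκ2]
    field_simp
    ring
  have hlog : Real.log (1 + κ) = Real.log (1 + κ') + Real.log (1 + κ2) := by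
    rw [hprod, Real.log_mul (by positivity) (by positivity)]
  have hκ0 : 0 < κ := hκ'.trans hlt
  obtain ⟨h1, h2⟩ := CC_add h (Real.log (1 + κ')) (Real.log (1 + κ2)) hη
  rw [← hlog, ← V0_eq h.1 hκ0, ← V0_eq h.1 hκ', ← V0_eq h.1 hκ20, Real.exp_log (by linarith)] at h1 h2
  have h3 : (1 + κ') * V0 κ2 ≤ K * (κ - κ') := by
    have h4 := mul_le_mul_of_nonneg_left (hK κ2 hκ20 hκ21) (by linarith : 0 ≤ 1 + κ')
    have e : (1 + κ') * (K * κ2) = K * (κ - κ') := by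
      rw [hκ2]
      field_simp
    linarith
  have h4 : (1 + 1 / η) * ((1 + κ') * V0 κ2) ≤ (1 + 1 / η) * (K * (κ - κ')) := by gcongr
  exact ⟨by linarith, by linarith⟩

/-- the function -/
noncomputable def Ph (t : ℝ) : ℝ := t * V0 (1 / t)

theorem Ph_cont (h : ZC) : ContinuousOn Ph (Ioi 0) := by
  unfold Ph
  refine continuousOn_id.mul ((V0_cont h).comp ?_ fun t ht => ?_)
  · refine ContinuousOn.div (by fun_prop) (by fun_prop) fun v hv => ?_
    exact (ne_of_gt hv)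
  · have : 0 < t := ht
    show 0 < 1 / t
    positivity

theorem Ph_nonneg {t : ℝ} (ht : 0 ≤ t) : 0 ≤ Ph t := mul_nonneg ht (V0_nonneg _)

theorem Ph_le {K : ℝ} (hK : ∀ κ : ℝ, 0 < κ → κ ≤ 1 → V0 κ ≤ K * κ) {t : ℝ} (ht : 1 ≤ t) : Ph t ≤ K := by
  have ht0 : 0 < t := by linarith
  have h1 := hK (1 / t) (by positivity) ((div_le_one ht0).2 ht)
  unfold Ph
  calc t * V0 (1 / t) ≤ t * (K * (1 / t)) := by gcongr
    _ = K := by field_simp

theorem Ph_osc (h : ZC) {K : ℝ} (hK : ∀ κ : ℝ, 0 < κ → κ ≤ 1 → V0 κ ≤ K * κ) {η : ℝ} (hη : 0 < η)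
    (hη1 : η ≤ 1) {t t' : ℝ} (ht : 1 ≤ t) (htt : t ≤ t') (ht' : t' ≤ (1 + η ^ 2) * t) :
    |Ph t' - Ph t| ≤ 11 * K * η := by
  have ht0 : 0 < t := by linarith
  have ht'0 : 0 < t' := by linarith
  have hPt := Ph_le hK ht
  have hPt' := Ph_le hK (ht.trans htt)
  have hP0 := Ph_nonneg ht0.le
  have hP0' := Ph_nonneg ht'0.le
  have hK0 : 0 ≤ K := hP0.trans hPt
  rcases eq_or_lt_of_le htt with heq | hlt
  · rw [heq, sub_self, abs_zero]
    positivity
  have hlt' : 1 / t' < 1 / t := one_div_lt_one_div_of_lt ht0 hlt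
  obtain ⟨h1, h2⟩ := V0_osc h hK hη (by positivity : 0 < 1 / t') hlt' ((div_le_one ht0).2 ht)
  have hd : 1 / t - 1 / t' = (t' - t) / (t * t') := by field_simp
  have hη2 : (1 + 1 / η) * η ^ 2 ≤ 2 * η := by
    have e : (1 + 1 / η) * η ^ 2 = η ^ 2 + η := by field_simp
    rw [e]
    nlinarith
  have hη0 : 0 ≤ 1 + 1 / η := by positivity
  -- first inequality
  have a1 : Ph t ≤ (1 + η) * Ph t' + 2 * K * η := by
    have b1 : t * (K * (1 / t - 1 / t')) ≤ K * η ^ 2 := by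
      rw [hd]
      have e : t * (K * ((t' - t) / (t * t'))) = K * ((t' - t) / t') := by field_simp
      rw [e]
      gcongr
      rw [div_le_iff₀ ht'0]
      nlinarith [sq_nonneg η]
    have b2 : t * V0 (1 / t') ≤ t' * V0 (1 / t') := by
      have := V0_nonneg (1 / t')
      gcongr
    calc Ph t = t * V0 (1 / t) := rfl
      _ ≤ t * ((1 + η) * V0 (1 / t') + (1 + 1 / η) * (K * (1 / t - 1 / t'))) := by gcongr
      _ = (1 + η) * (t * V0 (1 / t')) + (1 + 1 / η) * (t * (K * (1 / t - 1 / t'))) := by ring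
      _ ≤ (1 + η) * (t' * V0 (1 / t')) + (1 + 1 / η) * (K * η ^ 2) := by gcongr
      _ = (1 + η) * Ph t' + K * ((1 + 1 / η) * η ^ 2) := by unfold Ph; ring
      _ ≤ (1 + η) * Ph t' + K * (2 * η) := by gcongr
      _ = _ := by ring
  have a2 : Ph t' ≤ (1 + η ^ 2) * ((1 + η) * Ph t) + 2 * K * η := by
    have b1 : t' * (K * (1 / t - 1 / t')) ≤ K * η ^ 2 := by
      rw [hd]
      have e : t' * (K * ((t' - t) / (t * t'))) = K * ((t' - t) / t) := by field_simp
      rw [e]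
      gcongr
      rw [div_le_iff₀ ht0]
      linarith
    have b2 : t' * V0 (1 / t) ≤ (1 + η ^ 2) * t * V0 (1 / t) := by
      have := V0_nonneg (1 / t)
      gcongr
    calc Ph t' = t' * V0 (1 / t') := rfl
      _ ≤ t' * ((1 + η) * V0 (1 / t) + (1 + 1 / η) * (K * (1 / t - 1 / t'))) := by gcongr
      _ = (1 + η) * (t' * V0 (1 / t)) + (1 + 1 / η) * (t' * (K * (1 / t - 1 / t'))) := by ring
      _ ≤ (1 + η) * ((1 + η ^ 2) * t * V0 (1 / t)) + (1 + 1 / η) * (K * η ^ 2) := by gcongr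
      _ = (1 + η ^ 2) * ((1 + η) * Ph t) + K * ((1 + 1 / η) * η ^ 2) := by unfold Ph; ring
      _ ≤ (1 + η ^ 2) * ((1 + η) * Ph t) + K * (2 * η) := by gcongr
      _ = _ := by ring
  have hηK : η * Ph t' ≤ η * K := by gcongr
  have hmul : (1 + η ^ 2) * ((1 + η) * Ph t) ≤ Ph t + 3 * η * K := by
    have e : (1 + η ^ 2) * ((1 + η) * Ph t) = Ph t + (η + η ^ 2 + η ^ 3) * Ph t := by ring
    rw [e]
    have c1 : η + η ^ 2 + η ^ 3 ≤ 3 * η := by
      have c2 : η ^ 2 ≤ η := by nlinarith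
      have c3 : η ^ 3 ≤ η := by
        calc η ^ 3 = η * η ^ 2 := by ring
          _ ≤ η * 1 := by gcongr; nlinarith
          _ = η := mul_one _
      linarith
    have c4 : (η + η ^ 2 + η ^ 3) * Ph t ≤ 3 * η * K := by gcongr
    linarith
  have hKη : 0 ≤ K * η := by positivity
  rw [abs_le]
  constructor <;> nlinarith

theorem Lam_eq {T : ℝ} (hT : 0 < T) : Lam T = T⁻¹ * ∫ t in (T - 1 / 2)..(2 * T - 1 / 2), Ph t := by
  have h1 := intervalIntegral.integral_comp_mul_left (a := 1 - 1 / (2 * T)) (b := 2 - 1 / (2 * T)) Ph hT.ne'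
  have e1 : T * (1 - 1 / (2 * T)) = T - 1 / 2 := by field_simp
  have e2 : T * (2 - 1 / (2 * T)) = 2 * T - 1 / 2 := by field_simp
  rw [e1, e2, smul_eq_mul] at h1
  rw [← h1]
  rfl

/-- the Tauberian link of helper39's library -/
theorem key (h : ZC) (A : ℝ) : Tendsto (fun T : ℝ => J T / T) atTop (𝓝 A) ↔
    Tendsto Ph atTop (𝓝 (2 * Real.pi * A)) := by
  have := countable_NT
  have k1 : Tendsto (fun T : ℝ => J T / T) atTop (𝓝 A) ↔
      Tendsto (fun κ => CC gz bz (Real.log (1 + κ)) / κ) (𝓝[>] 0) (𝓝 (2 * Real.pi * A)) := by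
    rw [← lim_change, ← tauber (g := gz) bz_nonneg (bz_summable h) A]
    have e : (fun T => JJ gz bz T / T) = fun T => 2 * (J T / T) := by
      funext T
      rw [JJ_eq h.1]
      ring
    rw [e]
    constructor
    · intro h1
      exact h1.const_mul 2
    · intro h1
      have h2 := h1.const_mul (1 / 2 : ℝ)
      have e2 : (1 / 2 : ℝ) * (2 * A) = A := by ring
      rw [e2] at h2
      refine h2.congr fun T => ?_
      ring
  rw [k1]
  constructor
  · intro h1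
    have h2 := h1.comp tendsto_inv_atTop_nhdsGT_zero
    refine h2.congr' ?_
    filter_upwards [eventually_gt_atTop 0] with t ht
    simp only [Function.comp]
    unfold Ph
    rw [V0_eq h.1 (by positivity), one_div]
    field_simp
  · intro h1
    have h2 := h1.comp tendsto_inv_nhdsGT_zero
    refine h2.congr' ?_
    filter_upwards [self_mem_nhdsWithin] with κ hκ
    have hκ0 : 0 < κ := hκ
    simp only [Function.comp]
    unfold Ph
    rw [one_div, inv_inv, V0_eq h.1 hκ0]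
    field_simp

theorem V0_bound (hR : RHS) {C : ℝ} (hJ : ∀ T : ℝ, 1 ≤ T → J T ≤ C * T) :
    ZC ∧ ∃ K : ℝ, ∀ κ : ℝ, 0 < κ → κ ≤ 1 → V0 κ ≤ K * κ := by
  have hJ' : ∀ T : ℝ, 1 ≤ T → J T ≤ C * T ^ ((2 : ℝ) - 1) := by
    intro T hT
    have e : (2 : ℝ) - 1 = 1 := by norm_num
    rw [e, Real.rpow_one]
    exact hJ T hT
  obtain ⟨-, h, -⟩ := ZC_of_J hR one_pos hJ'
  refine ⟨h, 68 * (4 * (2 * C) / (1 - (1 / 2 : ℝ) ^ (1 : ℝ))), fun κ hκ hκ1 => ?_⟩
  have h1 := CC_of_J hR one_pos hJ' hκ hκ1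
  rw [V0_eq hR hκ]
  rwa [Real.rpow_one κ] at h1

theorem J_bdd_of_lim (hR : RHS) {A : ℝ} (hJ : Tendsto (fun T : ℝ => J T / T) atTop (𝓝 A)) :
    ∃ C : ℝ, ∀ T : ℝ, 1 ≤ T → J T ≤ C * T := by
  obtain ⟨T0, hT0⟩ := eventually_atTop.1 (hJ.eventually (gt_mem_nhds (lt_add_one A)))
  refine ⟨max (A + 1) (J (max T0 1)), fun T hT => ?_⟩
  have hT' : 0 < T := by linarith
  rcases le_total (max T0 1) T with h1 | h1
  · have h2 := hT0 T ((le_max_left _ _).trans h1)
    rw [div_lt_iff₀ hT'] at h2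
    exact h2.le.trans (mul_le_mul_of_nonneg_right (le_max_left _ _) hT'.le)
  · have h2 := J_mono hR h1
    have h3 := J_nonneg (max T0 1)
    calc J T ≤ J (max T0 1) := h2
      _ ≤ J (max T0 1) * T := by nlinarith
      _ ≤ _ := mul_le_mul_of_nonneg_right (le_max_right _ _) hT'.le

/-- **the asymptotic formula** -/
theorem edge_asym (A : ℝ) :
    ((∀ ρ ∈ NT, ρ.re = 1 / 2 ∧ deriv riemannZeta ρ ≠ 0) ∧ Tendsto (fun T : ℝ => J T / T) atTop (𝓝 A)) ↔
    ∀ ε : ℝ, 0 < ε → ∃ T₀ : ℝ, ∀ T : ℝ, T₀ ≤ T → ∀ᶠ z : ℝ in atTop,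
      |QQ T z / Real.log z - 2 * Real.pi * A| ≤ ε := by
  constructor
  · rintro ⟨hR, hJ⟩ ε hε
    obtain ⟨C, hC⟩ := J_bdd_of_lim hR hJ
    obtain ⟨h, -⟩ := V0_bound hR hC
    have h1 := mean_of_lim (Ph_cont h) ((key h A).1 hJ)
    obtain ⟨T0, hT0⟩ := (Metric.tendsto_atTop.1 h1) ε hε
    refine ⟨max T0 2, fun T hT => ?_⟩
    have hT1 : T0 ≤ T := (le_max_left _ _).trans hT
    have hT2 : 2 ≤ T := (le_max_right _ _).trans hT
    have h2 := hT0 T hT1
    rw [Real.dist_eq, ← Lam_eq (by linarith)] at h2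
    have h3 := (((mean_lim h hT2).sub_const (2 * Real.pi * A)).abs).eventually (gt_mem_nhds h2)
    exact h3.mono fun z hz => hz.le
  · intro hA
    have h : ZC := by
      obtain ⟨T₀, h1⟩ := hA 1 one_pos
      have h2 := h1 (max T₀ 2) (le_max_left _ _)
      refine ZC_of_mean (T := max T₀ 2) (le_max_right _ _) (C := 2 * Real.pi * A + 1) ?_
      refine Eventually.frequently ?_
      filter_upwards [h2, eventually_gt_atTop 1] with z hz hz1
      have hl : 0 < Real.log z := Real.log_pos hz1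
      have h3 := (abs_le.1 hz).2
      have h4 : QQ (max T₀ 2) z / Real.log z ≤ 2 * Real.pi * A + 1 := by linarith
      rwa [div_le_iff₀ hl] at h4
    refine ⟨h.1, (key h A).2 ?_⟩
    have hLam : ∀ ε : ℝ, 0 < ε → ∃ T₀ : ℝ, 2 ≤ T₀ ∧ ∀ T : ℝ, T₀ ≤ T → |Lam T - 2 * Real.pi * A| ≤ ε := by
      intro ε hε
      obtain ⟨T₀, h1⟩ := hA ε hε
      refine ⟨max T₀ 2, le_max_right _ _, fun T hT => ?_⟩
      exact le_of_tendsto ((mean_lim h ((le_max_right _ _).trans hT)).sub_const (2 * Real.pi * A)).abs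
        (h1 T ((le_max_left _ _).trans hT))
    -- a bound for J
    obtain ⟨C, hC⟩ : ∃ C : ℝ, ∀ T : ℝ, 1 ≤ T → J T ≤ C * T := by
      obtain ⟨T₀, hT₀, h1⟩ := hLam 1 one_pos
      have hJ0 := J_nonneg T₀
      have hB : 0 ≤ |2 * Real.pi * A| + 1 := by positivity
      refine ⟨128 * (|2 * Real.pi * A| + 1) + J T₀, fun T hT => ?_⟩
      have hTp : 0 < T := by linarith
      rcases le_total T₀ T with h2 | h2
      · have h3 := J_le_Lam h (T := 8 * T) (by linarith)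
        have e1 : 8 * T / 8 = T := by ring
        rw [e1] at h3
        have h4 := (abs_le.1 (h1 (8 * T) (by linarith))).2
        have h5 : Lam (8 * T) ≤ |2 * Real.pi * A| + 1 := by
          have := le_abs_self (2 * Real.pi * A)
          linarith
        calc J T ≤ 16 * (8 * T) * Lam (8 * T) := h3
          _ ≤ 16 * (8 * T) * (|2 * Real.pi * A| + 1) := by gcongr
          _ = 128 * (|2 * Real.pi * A| + 1) * T := by ring
          _ ≤ (128 * (|2 * Real.pi * A| + 1) + J T₀) * T := by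
            gcongr
            linarith
      · have h3 := J_mono h.1 h2
        calc J T ≤ J T₀ := h3
          _ ≤ J T₀ * T := by nlinarith
          _ ≤ (128 * (|2 * Real.pi * A| + 1) + J T₀) * T := by
            gcongr
            linarith
    obtain ⟨-, K, hK⟩ := V0_bound h.1 hC
    refine taub (K := K) (Ph_cont h) (fun t ht => Ph_nonneg (by linarith)) (fun t ht => Ph_le hK ht)
      (fun η hη hη1 t t' ht htt ht' => Ph_osc h hK hη hη1 ht htt ht') ?_
    rw [Metric.tendsto_atTop]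
    intro ε hε
    obtain ⟨T₀, hT₀, h1⟩ := hLam (ε / 2) (by positivity)
    refine ⟨T₀, fun T hT => ?_⟩
    have h2 := h1 T hT
    rw [Lam_eq (by linarith)] at h2
    rw [Real.dist_eq]
    linarith

end Pool.Agent.J6H10.GE
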