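import Pool.Agent.J6H10.GE.E5

/-! From asymptotic formulas for the variance to the logarithmic mean. -/

set_option autoImplicit false

open MeasureTheory Set Filter Topology

namespace Pool.Agent.J6H10.GE

open Pool.Agent.H448R2.GC (Mer MH VV)
open Pool.Agent.J6H39.ML (NT RHS ZC)
open Pool.Agent.J6H39.IC (J)

theorem V_ii {T z : ℝ} (hT : 2 ≤ T) (hz : 1 ≤ z) :
    IntervalIntegrable (fun X => VV X (X / T) / (X / T) / X) volume 1 z := by
  have hT0 : 0 < T := by linarith
  rw [intervalIntegrable_iff_integrableOn_Ioc_of_le hz]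
  have h1 := (FF_int (z := z) hT).integral_prod_left
  refine Integrable.congr h1 ?_
  refine (ae_restrict_iff' measurableSet_Ioc).2 (Eventually.of_forall fun X hX => ?_)
  have hX0 : 0 < X := by linarith [hX.1]
  show (∫ v in Ioc (1 - 1 / (2 * T)) (2 - 1 / (2 * T)), FF T X v) = VV X (X / T) / (X / T) / X
  rw [VV_ratio hX0 (by linarith), intervalIntegral.integral_of_le (ends_le T)]
  have e3 : ∀ v, FF T X v = (T / X ^ 2) * ((X * v) ^ 2 * gg (kp T v) (X * v)) := by
    intro v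
    unfold FF
    field_simp
  simp_rw [e3]
  rw [integral_const_mul]
  field_simp

theorem inv_ii {B a z : ℝ} (ha : 0 < a) (hz : a ≤ z) :
    IntervalIntegrable (fun X : ℝ => B / X) volume a z := by
  refine ContinuousOn.intervalIntegrable ?_
  rw [uIcc_of_le hz]
  refine continuousOn_const.div continuousOn_id fun x hx => ?_
  have : a ≤ x := hx.1
  exact (by simp only [id]; linarith : (0 : ℝ) < id x).ne'

theorem int_div {B a z : ℝ} (ha : 0 < a) (hz : a ≤ z) :
    ∫ X in a..z, B / X = B * (Real.log z - Real.log a) := by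
  have h1 : ∫ X in a..z, B / X = B * ∫ X in a..z, X⁻¹ := by
    rw [← intervalIntegral.integral_const_mul]
    rfl
  have hz0 : 0 < z := lt_of_lt_of_le ha hz
  rw [h1, integral_inv_of_pos ha hz0, Real.log_div hz0.ne' ha.ne']

/-- pointwise bounds give bounds for the mean -/
theorem mean_of_point {T : ℝ} (hT : 2 ≤ T) {B ε : ℝ} (hε : 0 < ε)
    (h : ∀ᶠ X : ℝ in atTop, |VV X (X / T) / (X / T) - B| ≤ ε) :
    ∀ᶠ z : ℝ in atTop, |QQ T z / Real.log z - B| ≤ 2 * ε := by
  obtain ⟨N0, hN0⟩ := eventually_atTop.1 h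
  set N := max N0 1 with hN
  have hN1 : 1 ≤ N := le_max_right _ _
  have hNp : 0 < N := by linarith
  set f : ℝ → ℝ := fun X => VV X (X / T) / (X / T) / X with hf
  set c := |∫ X in (1 : ℝ)..N, (f X - B / X)| with hc
  filter_upwards [eventually_ge_atTop N, eventually_gt_atTop 1,
    Real.tendsto_log_atTop.eventually (eventually_ge_atTop (c / ε))] with z hz hz1 hzc
  have hl : 0 < Real.log z := Real.log_pos hz1
  have i1 := V_ii hT hN1
  have i2 : IntervalIntegrable f volume 1 z := V_ii hT hz1.le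
  have i3 : IntervalIntegrable f volume N z :=
    i2.mono_set (by
      rw [uIcc_of_le hz, uIcc_of_le hz1.le]
      exact Icc_subset_Icc hN1 le_rfl)
  have j1 : IntervalIntegrable (fun X : ℝ => B / X) volume 1 N := inv_ii one_pos hN1
  have j2 : IntervalIntegrable (fun X : ℝ => B / X) volume 1 z := inv_ii one_pos hz1.le
  have j3 : IntervalIntegrable (fun X : ℝ => B / X) volume N z := inv_ii hNp hz
  have e1 : QQ T z - B * Real.log z = (∫ X in (1 : ℝ)..N, (f X - B / X)) + ∫ X in N..z, (f X - B / X) := by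
    rw [intervalIntegral.integral_add_adjacent_intervals (i1.sub j1) (i3.sub j3),
      intervalIntegral.integral_sub i2 j2, int_div one_pos hz1.le, Real.log_one, sub_zero]
    rfl
  have hb : |∫ X in N..z, (f X - B / X)| ≤ ε * Real.log z := by
    rw [← Real.norm_eq_abs]
    have h1 := intervalIntegral.norm_integral_le_of_norm_le (μ := volume) (f := fun X => f X - B / X) (g := fun X : ℝ => ε / X) hz
      (Eventually.of_forall fun X hX => ?_) (inv_ii hNp hz)
    · rw [int_div hNp hz] at h1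
      refine h1.trans ?_
      have : 0 ≤ Real.log N := Real.log_nonneg hN1
      gcongr
      linarith
    · have hX0 : 0 < X := by linarith [hX.1]
      have h2 := hN0 X ((le_max_left _ _).trans hX.1.le)
      have e2 : f X - B / X = (VV X (X / T) / (X / T) - B) / X := by rw [hf]; ring
      rw [e2, Real.norm_eq_abs, abs_div, abs_of_pos hX0]
      gcongr
  have e2 : QQ T z / Real.log z - B = (QQ T z - B * Real.log z) / Real.log z := by field_simp
  rw [e2, abs_div, abs_of_pos hl, div_le_iff₀ hl, e1]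
  have h3 := abs_add_le (∫ X in (1 : ℝ)..N, (f X - B / X)) (∫ X in N..z, (f X - B / X))
  rw [div_le_iff₀ hε] at hzc
  linarith

/-- the diagonal argument -/
theorem diag {P : ℝ → ℝ → Prop} {δ : ℝ} (hδ : 0 < δ)
    (h : ∀ T₀ : ℝ, ∃ T : ℝ, T₀ ≤ T ∧ ∃ᶠ X : ℝ in atTop, P X T) :
    ∃ Tf : ℝ → ℝ, Tendsto Tf atTop atTop ∧ (∀ᶠ X : ℝ in atTop, Tf X ≤ X ^ δ) ∧
      ∃ᶠ X : ℝ in atTop, P X (Tf X) := by
  choose T hT hP using fun n : ℕ => h ((n : ℝ) + 1)
  have hg : ∀ (n : ℕ) (M : ℝ), ∃ X : ℝ, M ≤ X ∧ T n ≤ X ^ δ ∧ P X (T n) := by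
    intro n M
    obtain ⟨X, h1, h2, h3⟩ := ((hP n).and_eventually ((eventually_ge_atTop M).and
      ((tendsto_rpow_atTop hδ).eventually (eventually_ge_atTop (T n))))).exists
    exact ⟨X, h2, h3, h1⟩
  choose g hg1 hg2 hg3 using hg
  obtain ⟨x, hx0, hxs⟩ : ∃ x : ℕ → ℝ, x 0 = g 0 1 ∧ ∀ n, x (n + 1) = g (n + 1) (x n + 1) :=
    ⟨fun n => Nat.rec (motive := fun _ => ℝ) (g 0 1) (fun n y => g (n + 1) (y + 1)) n, rfl, fun n => rfl⟩
  have hx : StrictMono x := strictMono_nat_of_lt_succ fun n => by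
    have := hg1 (n + 1) (x n + 1)
    rw [hxs]
    linarith
  have hxP : ∀ n, P (x n) (T n) := by
    intro n
    cases n with
    | zero => rw [hx0]; exact hg3 0 1
    | succ n => rw [hxs]; exact hg3 (n + 1) (x n + 1)
  have hxδ : ∀ n, T n ≤ (x n) ^ δ := by
    intro n
    cases n with
    | zero => rw [hx0]; exact hg2 0 1
    | succ n => rw [hxs]; exact hg2 (n + 1) (x n + 1)
  have hxn : ∀ n : ℕ, (n : ℝ) + 1 ≤ x n := by
    intro n
    induction n with
    | zero =>
      have h5 : (1 : ℝ) ≤ g 0 1 := hg1 0 1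
      rw [hx0]
      push_cast
      linarith
    | succ n ih =>
      have := hg1 (n + 1) (x n + 1)
      rw [hxs]
      push_cast
      linarith
  obtain ⟨Tf, hTf, hTf2⟩ : ∃ Tf : ℝ → ℝ, (∀ n : ℕ, Tf (x n) = T n) ∧
      ∀ X : ℝ, (¬ ∃ n : ℕ, x n = X) → Tf X = 1 + Real.log X :=
    ⟨Function.extend x T (fun X => 1 + Real.log X), fun n => hx.injective.extend_apply _ _ n,
      fun X hX => Function.extend_apply' _ _ _ hX⟩
  refine ⟨Tf, ?_, ?_, ?_⟩
  · rw [tendsto_atTop]
    intro N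
    have hlog : Tendsto (fun X : ℝ => 1 + Real.log X) atTop atTop :=
      tendsto_atTop_add_const_left _ _ Real.tendsto_log_atTop
    filter_upwards [eventually_ge_atTop (x ⌈N⌉₊), hlog.eventually (eventually_ge_atTop N)] with X h1 h2
    rcases Classical.em (∃ n : ℕ, x n = X) with hX | hX
    · obtain ⟨n, rfl⟩ := hX
      rw [hTf]
      have h3 : ⌈N⌉₊ ≤ n := hx.le_iff_le.1 h1
      have h4 : N ≤ n := (Nat.le_ceil N).trans (by exact_mod_cast h3)
      have := hT n
      linarith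
    · rw [hTf2 X hX]
      exact h2
  · have hlo := (isLittleO_log_rpow_atTop hδ).bound (by norm_num : (0 : ℝ) < 1 / 2)
    filter_upwards [hlo, (tendsto_rpow_atTop hδ).eventually (eventually_ge_atTop 2),
      eventually_ge_atTop 1] with X h1 h2 h3
    rcases Classical.em (∃ n : ℕ, x n = X) with hX | hX
    · obtain ⟨n, rfl⟩ := hX
      rw [hTf]
      exact hxδ n
    · rw [hTf2 X hX]
      rw [Real.norm_eq_abs, Real.norm_eq_abs, abs_of_nonneg (Real.log_nonneg h3),
        abs_of_pos (by linarith : 0 < X ^ δ)] at h1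
      linarith
  · rw [frequently_atTop]
    intro a
    refine ⟨x ⌈a⌉₊, ?_, ?_⟩
    · have h1 := Nat.le_ceil a
      have h2 := hxn ⌈a⌉₊
      linarith
    · rw [hTf]
      exact hxP _

/-- **the range `X^(1-δ) ≤ H = o(X)`** -/
theorem unif_of_range {δ B : ℝ} (hδ : 0 < δ)
    (h : ∀ H : ℝ → ℝ, (∀ᶠ X : ℝ in atTop, X ^ (1 - δ) ≤ H X) → Tendsto (fun X => H X / X) atTop (𝓝 0) →
      Tendsto (fun X => VV X (H X) / H X) atTop (𝓝 B)) {ε : ℝ} (hε : 0 < ε) :
    ∃ T₀ : ℝ, ∀ T : ℝ, T₀ ≤ T → ∀ᶠ X : ℝ in atTop, |VV X (X / T) / (X / T) - B| ≤ ε := by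
  by_contra hcon
  push Not at hcon
  obtain ⟨Tf, h1, h2, h3⟩ := diag (P := fun X T => ε < |VV X (X / T) / (X / T) - B|) hδ fun T₀ => by
    obtain ⟨T, hT, hf⟩ := hcon T₀
    refine ⟨T, hT, ?_⟩
    exact hf
  have h4 := h (fun X => X / Tf X) ?_ ?_
  · have h5 := h4.eventually (Metric.ball_mem_nhds B hε)
    obtain ⟨X, h6, h7⟩ := (h3.and_eventually h5).exists
    rw [Real.dist_eq] at h7
    linarith
  · filter_upwards [h2, h1.eventually (eventually_gt_atTop 0), eventually_gt_atTop 0] with X h5 h6 h7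
    have h8 : 0 < X ^ δ := by positivity
    rw [Real.rpow_sub h7, Real.rpow_one]
    gcongr
  · have h5 := tendsto_inv_atTop_zero.comp h1
    refine h5.congr' ?_
    filter_upwards [eventually_gt_atTop 0, h1.eventually (eventually_gt_atTop 0)] with X h6 h7
    simp only [Function.comp]
    field_simp

/-- **the extended conjecture gives Gonek's conjecture** -/
theorem gonek_of_range {δ A : ℝ} (hδ : 0 < δ)
    (h : ∀ H : ℝ → ℝ, (∀ᶠ X : ℝ in atTop, X ^ (1 - δ) ≤ H X) → Tendsto (fun X => H X / X) atTop (𝓝 0) →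
      Tendsto (fun X => VV X (H X) / H X) atTop (𝓝 (2 * Real.pi * A))) :
    (∀ ρ ∈ NT, ρ.re = 1 / 2 ∧ deriv riemannZeta ρ ≠ 0) ∧ Tendsto (fun T : ℝ => J T / T) atTop (𝓝 A) := by
  rw [edge_asym]
  intro ε hε
  obtain ⟨T₀, hT₀⟩ := unif_of_range hδ h (by positivity : 0 < ε / 2)
  refine ⟨max T₀ 2, fun T hT => ?_⟩
  have h1 := mean_of_point ((le_max_right _ _).trans hT) (by positivity : 0 < ε / 2)
    (hT₀ T ((le_max_left _ _).trans hT))
  have e : 2 * (ε / 2) = ε := by ring
  rwa [e] at h1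

/-- **a bound on a sparse set of scales** -/
theorem J_of_freq {T C : ℝ} (hT : 8 ≤ T) (h : ∃ᶠ z : ℝ in atTop, QQ T z / Real.log z ≤ C) :
    (∀ ρ ∈ NT, ρ.re = 1 / 2 ∧ deriv riemannZeta ρ ≠ 0) ∧ J (T / 8) ≤ 16 * C * T := by
  have hz : ZC := by
    refine ZC_of_mean (T := T) (by linarith) (C := C) ?_
    refine (h.and_eventually (eventually_gt_atTop 1)).mono fun z hz => ?_
    have hl : 0 < Real.log z := Real.log_pos hz.2
    have h1 := hz.1
    rwa [div_le_iff₀ hl] at h1
  refine ⟨hz.1, ?_⟩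
  have h1 : Lam T ≤ C := by
    have h2 := mean_lim hz (by linarith : 2 ≤ T)
    by_contra hcon
    push Not at hcon
    obtain ⟨z, h3, h4⟩ := (h.and_eventually (h2.eventually (lt_mem_nhds hcon))).exists
    linarith
  have h2 := J_le_Lam hz hT
  calc J (T / 8) ≤ 16 * T * Lam T := h2
    _ ≤ 16 * T * C := by gcongr
    _ = 16 * C * T := by ring

end Pool.Agent.J6H10.GE
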